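import Mathlib

/-!
Fibre decomposition of sums over bijections, partial permanents, Laplace expansion.
-/

open Finset BigOperators

namespace Pool.Agent.helper16.LSZ

theorem univ_inst {α : Type*} (i1 i2 : Fintype α) : @Finset.univ α i1 = @Finset.univ α i2 := by
  rw [Subsingleton.elim i1 i2]

section fiber

variable {ι κ Q : Type*}

/-- Bijections compatible with labellings are families of bijections of the fibres. -/
def fiberEquiv (f : ι → Q) (g : κ → Q) :
    {σ : ι ≃ κ // ∀ i, g (σ i) = f i} ≃ (∀ q, {i // f i = q} ≃ {k // g k = q}) where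
  toFun σ q :=
    { toFun := fun i => ⟨σ.1 i.1, by rw [σ.2, i.2]⟩
      invFun := fun k => ⟨σ.1.symm k.1, by rw [← σ.2, Equiv.apply_symm_apply, k.2]⟩
      left_inv := fun i => by ext; simp
      right_inv := fun k => by ext; simp }
  invFun e :=
    ⟨{ toFun := fun i => (e (f i) ⟨i, rfl⟩).1
       invFun := fun k => ((e (g k)).symm ⟨k, rfl⟩).1
       left_inv := fun i => by
        have key : ∀ (q : Q) (h : f i = q) (y : κ) (hy : g y = q) (_ : (e q ⟨i, h⟩).1 = y),
            ((e (g y)).symm ⟨y, rfl⟩).1 = i := by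
          intro q h y hy hy2
          subst hy
          have : (e (g y)) ⟨i, h⟩ = ⟨y, rfl⟩ := Subtype.ext hy2
          rw [← this]; simp
        exact key (f i) rfl _ (e (f i) ⟨i, rfl⟩).2 rfl
       right_inv := fun k => by
        have key : ∀ (q : Q) (h : g k = q) (y : ι) (hy : f y = q)
            (_ : ((e q).symm ⟨k, h⟩).1 = y), (e (f y) ⟨y, rfl⟩).1 = k := by
          intro q h y hy hy2
          subst hy
          have : (e (f y)).symm ⟨k, h⟩ = ⟨y, rfl⟩ := Subtype.ext hy2
          rw [← this]; simp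
        exact key (g k) rfl _ ((e (g k)).symm ⟨k, rfl⟩).2 rfl },
      fun i => (e (f i) ⟨i, rfl⟩).2⟩
  left_inv σ := by ext; simp
  right_inv e := by
    funext q
    ext i
    obtain ⟨i, rfl⟩ := i
    simp

theorem fiberEquiv_apply (f : ι → Q) (g : κ → Q) (σ : {σ : ι ≃ κ // ∀ i, g (σ i) = f i}) (q : Q)
    (i : {i // f i = q}) : ((fiberEquiv f g σ q i : {k // g k = q}) : κ) = σ.1 i.1 := rfl

end fiber

section pp

variable {ι κ Q : Type*} [Fintype ι] [Fintype κ] [Fintype Q]

open Classical in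
/-- Partial permanent: sum over the bijections between two subsets. -/
noncomputable def pp (M : ι → κ → ℂ) (p : ι → Prop) (q : κ → Prop) : ℂ :=
  ∑ e : ({i // p i} ≃ {k // q k}), ∏ i : {i // p i}, M i.1 (e i).1

open Classical in
theorem sum_fiber (f : ι → Q) (g : κ → Q) (M : ι → κ → ℂ)
    [Fintype {σ : ι ≃ κ // ∀ i, g (σ i) = f i}] :
    ∑ σ : {σ : ι ≃ κ // ∀ i, g (σ i) = f i}, ∏ i, M i (σ.1 i) =
      ∏ q, pp M (fun i => f i = q) (fun k => g k = q) := by
  unfold pp
  rw [Finset.prod_univ_sum]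
  rw [Fintype.piFinset_univ]
  refine Fintype.sum_equiv (fiberEquiv f g) _ _ fun σ => ?_
  rw [← Finset.prod_fiberwise (s := univ) (g := f)]
  refine Finset.prod_congr rfl fun q _ => ?_
  rw [Finset.prod_subtype (p := fun i => f i = q)]
  · rfl
  · intro x; simp

open Classical in
/-- Laplace expansion of a permanent along a labelling of the rows. -/
theorem laplace [Fintype (ι ≃ κ)] [Fintype (κ → Q)] (f : ι → Q) (M : ι → κ → ℂ) :
    ∑ σ : ι ≃ κ, ∏ i, M i (σ i) =
      ∑ g : κ → Q, ∏ q, pp M (fun i => f i = q) (fun k => g k = q) := by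
  simp_rw [← sum_fiber]
  rw [← Fintype.sum_sigma']
  refine (Fintype.sum_equiv
    (⟨fun x : (Σ g : κ → Q, {σ : ι ≃ κ // ∀ i, g (σ i) = f i}) => x.2.1,
      fun σ => ⟨fun k => f (σ.symm k), σ, fun i => by simp⟩, fun x => ?_, fun σ => rfl⟩) _ _
      fun x => rfl).symm
  obtain ⟨g, σ, h⟩ := x
  have : g = fun k => f (σ.symm k) := by
    funext k; rw [← h]; simp
  subst this
  rfl

end pp

end Pool.Agent.helper16.LSZ
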