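import Mathlib
import Pool.Agent.helper16.LSZ.Fib

/-!
Expansion of the permanent of a Kronecker product.
-/

open Finset BigOperators

namespace Pool.Agent.helper16.LSZ

theorem permanent_eq {n : Type*} [Fintype n] [DecidableEq n] (M : Matrix n n ℂ) :
    M.permanent = ∑ σ : n ≃ n, ∏ i, M i (σ i) := by
  rw [← Matrix.permanent_transpose]; rfl

section congr

variable {ι κ ι' κ' : Type*} [Fintype ι] [Fintype κ] [Fintype ι'] [Fintype κ']

open Classical in
theorem pp_congr (M : ι → κ → ℂ) (M' : ι' → κ' → ℂ) (p : ι → Prop) (q : κ → Prop)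
    (p' : ι' → Prop) (q' : κ' → Prop) (u : {i // p i} ≃ {i // p' i}) (v : {k // q k} ≃ {k // q' k})
    (h : ∀ i k, M i.1 k.1 = M' (u i).1 (v k).1) : pp M p q = pp M' p' q' := by
  unfold pp
  refine Fintype.sum_equiv (Equiv.equivCongr u v) _ _ fun e => ?_
  refine Fintype.prod_equiv u _ _ fun i => ?_
  rw [h]
  simp

open Classical in
theorem sum_split {X S R : Type*} [Fintype X] [Fintype S] [Fintype R] (P : S → R → X → Prop)
    [∀ s r, Fintype {x // P s r x}] (hs : X → S) (hr : X → R) (h : ∀ s r x, P s r x ↔ s = hs x ∧ r = hr x) (F : X → ℂ) :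
    ∑ x, F x = ∑ s, ∑ r, ∑ x : {x // P s r x}, F x.1 := by
  have h1 : ∀ s r, ∑ x : {x // P s r x}, F x.1 = ∑ x, if P s r x then F x else 0 := by
    intro s r
    rw [← Finset.sum_filter]
    rw [Finset.sum_subtype (p := fun x => P s r x)]
    intro x; simp
  simp_rw [h1]
  have h2 : ∀ s, ∑ r, ∑ x, (if P s r x then F x else 0) = ∑ x, ∑ r, if P s r x then F x else 0 :=
    fun s => Finset.sum_comm
  simp_rw [h2]
  rw [Finset.sum_comm]
  refine Finset.sum_congr rfl fun x _ => ?_
  simp_rw [h]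
  rw [Finset.sum_eq_single (hs x)]
  · rw [Finset.sum_eq_single (hr x)]
    · simp
    · intro b _ hb; simp [hb]
    · simp
  · intro b _ hb; simp [hb]
  · simp

open Classical in
theorem prod_pow_fiber {J I : Type*} [Fintype J] [Fintype I] (s : J → I) (A : I → ℂ) :
    ∏ a, A (s a) = ∏ i, A i ^ (univ.filter (fun a => s a = i)).card := by
  rw [← Finset.prod_fiberwise (s := univ) (g := s)]
  refine Finset.prod_congr rfl fun i _ => ?_
  rw [Finset.prod_congr rfl (g := fun _ => A i)]
  · simp
  · intro a ha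
    simp only [mem_filter, mem_univ, true_and] at ha
    simp [ha]

end congr

section kron

variable {I J : Type*} [Fintype I] [Fintype J]

/-- first coordinate fibres -/
def eqv1 (f : I → J → I) (i i' : I) : {x : I × J // (x.1, f x.1 x.2) = (i, i')} ≃ {a // f i a = i'} where
  toFun x := ⟨x.1.2, by
    obtain ⟨⟨j, b⟩, h⟩ := x
    simp only [Prod.mk.injEq] at h
    obtain ⟨h, h'⟩ := h
    subst h; exact h'⟩
  invFun a := ⟨(i, a.1), by simp [a.2]⟩
  left_inv x := by
    obtain ⟨⟨j, b⟩, h⟩ := x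
    simp only [Prod.mk.injEq] at h
    obtain ⟨h, h'⟩ := h
    subst h; rfl
  right_inv a := rfl

/-- second coordinate fibres -/
def eqv2 (f : I → J → I) (i i' : I) : {x : I × J // (f x.1 x.2, x.1) = (i, i')} ≃ {a // f i' a = i} where
  toFun x := ⟨x.1.2, by
    obtain ⟨⟨j, b⟩, h⟩ := x
    simp only [Prod.mk.injEq] at h
    obtain ⟨h1, h2⟩ := h
    subst h2; exact h1⟩
  invFun a := ⟨(i', a.1), by simp [a.2]⟩
  left_inv x := by
    obtain ⟨⟨j, b⟩, h⟩ := x
    simp only [Prod.mk.injEq] at h
    obtain ⟨h, h'⟩ := h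
    subst h'; rfl
  right_inv a := rfl

open Classical in
theorem kron_step (B : J → J → ℂ) (s r : I → J → I)
    [Fintype {σ : I × J ≃ I × J // ∀ x, (r (σ x).1 (σ x).2, (σ x).1) = (x.1, s x.1 x.2)}] :
    ∑ σ : {σ : I × J ≃ I × J // ∀ x, (r (σ x).1 (σ x).2, (σ x).1) = (x.1, s x.1 x.2)},
      ∏ x : I × J, B x.2 (σ.1 x).2 =
    ∏ i, ∏ i', pp B (fun a => s i a = i') (fun b => r i' b = i) := by
  have h4 := sum_fiber (ι := I × J) (κ := I × J) (Q := I × I) (fun x => (x.1, s x.1 x.2))
    (fun y => (r y.1 y.2, y.1)) (fun x y => B x.2 y.2)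
  refine Eq.trans h4 ?_
  rw [Fintype.prod_prod_type]
  refine Finset.prod_congr rfl fun i _ => Finset.prod_congr rfl fun i' _ => ?_
  exact pp_congr _ _ _ _ _ _ (eqv1 s i i') (eqv2 r i i') fun x y => rfl

open Classical in
theorem kron_expand [Fintype (I × J ≃ I × J)] (A : I → I → ℂ) (B : J → J → ℂ) :
    ∑ σ : I × J ≃ I × J, ∏ x, (A x.1 (σ x).1 * B x.2 (σ x).2) =
      ∑ s : I → J → I, ∑ r : I → J → I, ∏ i, ∏ i',
        (A i i' ^ (univ.filter (fun a => s i a = i')).card *
        pp B (fun a => s i a = i') (fun b => r i' b = i)) := by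
  rw [sum_split (S := I → J → I) (R := I → J → I)
    (fun s r (σ : I × J ≃ I × J) => ∀ x, (r (σ x).1 (σ x).2, (σ x).1) = (x.1, s x.1 x.2))
    (fun σ i a => (σ (i, a)).1) (fun σ i b => (σ.symm (i, b)).1)]
  · refine Finset.sum_congr rfl fun s _ => Finset.sum_congr rfl fun r _ => ?_
    have h2 : ∀ σ : {σ : I × J ≃ I × J //
        ∀ x, (r (σ x).1 (σ x).2, (σ x).1) = (x.1, s x.1 x.2)},
        ∏ x : I × J, (A x.1 (σ.1 x).1 * B x.2 (σ.1 x).2) =
          (∏ i, ∏ i', A i i' ^ (univ.filter (fun a => s i a = i')).card) *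
            ∏ x : I × J, B x.2 (σ.1 x).2 := by
      intro σ
      have h3 : ∀ x : I × J, (σ.1 x).1 = s x.1 x.2 := by
        intro x
        have := σ.2 x
        simp only [Prod.mk.injEq] at this
        exact this.2
      rw [Finset.prod_mul_distrib]
      congr 1
      rw [Fintype.prod_prod_type]
      refine Finset.prod_congr rfl fun i _ => ?_
      rw [← prod_pow_fiber (s i) (A i)]
      refine Finset.prod_congr rfl fun a _ => ?_
      rw [h3]
    rw [Finset.sum_congr rfl fun σ _ => h2 σ, ← Finset.mul_sum, kron_step,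
      ← Finset.prod_mul_distrib]
    refine Finset.prod_congr rfl fun i _ => ?_
    rw [← Finset.prod_mul_distrib]
  · intro s r σ
    constructor
    · intro h
      constructor
      · funext i a
        have := h (i, a)
        simp only [Prod.mk.injEq] at this
        exact this.2.symm
      · funext i b
        have := h (σ.symm (i, b))
        simp only [Equiv.apply_symm_apply, Prod.mk.injEq] at this
        exact this.1
    · rintro ⟨rfl, rfl⟩ x
      simp

end kron

end Pool.Agent.helper16.LSZ
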