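import Mathlib
import Pool.Agent.helper16.LSZ.Kron

/-!
Expansion of the permanent of A ⊗ B for a star matrix A.
-/

open Finset BigOperators

namespace Pool.Agent.helper16.LSZ

section basic

variable {J : Type*} [Fintype J] [DecidableEq J]

/-- matrix of partial permanents -/
noncomputable def GG (B : J → J → ℂ) : Matrix (Finset J) (Finset J) ℂ :=
  fun S R => pp B (fun a => a ∈ S) (fun b => b ∈ R)

/-- matrix of complementary partial permanents -/
noncomputable def VV (B : J → J → ℂ) : Matrix (Finset J) (Finset J) ℂ :=
  fun S R => pp B (fun a => a ∉ S) (fun b => b ∉ R)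

noncomputable def HH (B : J → J → ℂ) : Matrix (Finset J) (Finset J) ℂ :=
  GG B * (VV B).transpose * GG B

/-- fibre of a labelling as a finset -/
def fib {O : Type*} [DecidableEq O] (s : J → O) (o : O) : Finset J := univ.filter fun a => s a = o

omit [DecidableEq J] in
theorem mem_fib {O : Type*} [DecidableEq O] (s : J → O) (o : O) (a : J) : a ∈ fib s o ↔ s a = o := by
  simp [fib]

omit [DecidableEq J] in
open Classical in
theorem pp_eq_zero (M : J → J → ℂ) (p q : J → Prop)
    (h : (univ.filter p).card ≠ (univ.filter q).card) : pp M p q = 0 := by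
  unfold pp
  rw [Finset.sum_eq_zero]
  intro e _
  exfalso
  apply h
  have := Fintype.card_congr e
  rw [Fintype.card_subtype, Fintype.card_subtype] at this
  exact this

omit [DecidableEq J] in
open Classical in
theorem pp_false (M : J → J → ℂ) (p q : J → Prop) (hp : ∀ a, ¬ p a) (hq : ∀ a, ¬ q a) :
    pp M p q = 1 := by
  unfold pp
  have i1 : IsEmpty {a // p a} := ⟨fun a => hp a.1 a.2⟩
  have i2 : IsEmpty {a // q a} := ⟨fun a => hq a.1 a.2⟩
  have : Subsingleton ({a // p a} ≃ {a // q a}) := ⟨fun e f => by ext a; exact (i1.false a).elim⟩
  rw [Fintype.sum_subsingleton _ (Equiv.equivOfIsEmpty _ _)]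
  simp

omit [DecidableEq J] in
theorem GG_eq_zero (B : J → J → ℂ) (S R : Finset J) (h : S.card ≠ R.card) : GG B S R = 0 := by
  classical
  apply pp_eq_zero
  simpa using h

theorem VV_eq_zero (B : J → J → ℂ) (S R : Finset J) (h : S.card ≠ R.card) : VV B S R = 0 := by
  classical
  apply pp_eq_zero
  have h1 : ∀ T : Finset J, (univ.filter fun a => a ∉ T) = Tᶜ := by
    intro T; ext a; simp
  have h2 : ∀ T : Finset J, (univ.filter fun a => a ∉ T).card + T.card = Fintype.card J := by
    intro T
    rw [h1, Finset.card_compl]
    have := Finset.card_le_univ T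
    omega
  intro h3
  have h4 := h2 S
  have h5 := h2 R
  apply h
  have h6 : (univ.filter fun a => a ∉ S).card = (univ.filter fun a => a ∉ R).card := by
    convert h3
  omega

theorem HH_eq_zero (B : J → J → ℂ) (S R : Finset J) (h : S.card ≠ R.card) : HH B S R = 0 := by
  unfold HH
  rw [Matrix.mul_apply]
  apply Finset.sum_eq_zero
  intro T _
  by_cases h1 : T.card = R.card
  · rw [Matrix.mul_apply]
    rw [Finset.sum_eq_zero, zero_mul]
    intro U _
    by_cases h2 : S.card = U.card
    · rw [Matrix.transpose_apply, VV_eq_zero _ _ _ (by omega), mul_zero]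
    · rw [GG_eq_zero _ _ _ h2, zero_mul]
  · rw [GG_eq_zero _ _ _ h1, mul_zero]

end basic

section star

variable {K J : Type*} [Fintype K] [DecidableEq K] [Fintype J] [DecidableEq J]

/-- the good labellings -/
def theta (x : (J → Option K) × (K → Finset J)) : Option K → J → Option K
  | none => x.1
  | some k => fun a => if a ∈ x.2 k then none else some k

omit [Fintype K] [DecidableEq K] [Fintype J] in
theorem theta_injective : Function.Injective (theta (K := K) (J := J)) := by
  rintro ⟨s, S⟩ ⟨s', S'⟩ h
  have h1 : s = s' := congrFun h none
  have h2 : S = S' := by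
    funext k
    ext a
    have := congrFun (congrFun h (some k)) a
    simp only [theta] at this
    by_cases h1 : a ∈ S k
    · by_cases h2 : a ∈ S' k
      · simp [h1, h2]
      · simp [h1, h2] at this
    · by_cases h2 : a ∈ S' k
      · simp [h1, h2] at this
      · simp [h1, h2]
  rw [h1, h2]

omit [Fintype K] in
theorem not_range_theta (s : Option K → J → Option K)
    (h : s ∉ Set.range (theta (K := K) (J := J))) :
    ∃ k l a, k ≠ l ∧ s (some k) a = some l := by
  by_contra hcon
  apply h
  refine ⟨(s none, fun k => univ.filter fun a => s (some k) a = none), ?_⟩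
  funext i a
  match i with
  | none => rfl
  | some k =>
    simp only [theta, mem_filter, mem_univ, true_and]
    rcases h1 : s (some k) a with _ | l
    · simp
    · simp only [reduceCtorEq, ↓reduceIte, Option.some.injEq]
      by_contra h2
      exact hcon ⟨k, l, a, h2, h1⟩

open Classical in
/-- the summand of the expansion -/
noncomputable def term (A : Option K → Option K → ℂ) (B : J → J → ℂ)
    (s r : Option K → J → Option K) : ℂ :=
  ∏ i, ∏ i', (A i i' ^ (univ.filter (fun a => s i a = i')).card *
        pp B (fun a => s i a = i') (fun b => r i' b = i))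

theorem term_zero_left (A : Option K → Option K → ℂ) (hA : ∀ k l, k ≠ l → A (some k) (some l) = 0)
    (B : J → J → ℂ) (s r : Option K → J → Option K)
    (h : s ∉ Set.range (theta (K := K) (J := J))) : term A B s r = 0 := by
  classical
  obtain ⟨k, l, a, hkl, ha⟩ := not_range_theta s h
  unfold term
  apply Finset.prod_eq_zero (mem_univ (some k))
  apply Finset.prod_eq_zero (mem_univ (some l))
  rw [hA k l hkl, zero_pow, zero_mul]
  apply Finset.card_ne_zero_of_mem (a := a)
  simp [ha]

theorem term_zero_right (A : Option K → Option K → ℂ)
    (B : J → J → ℂ) (x : (J → Option K) × (K → Finset J)) (r : Option K → J → Option K)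
    (h : r ∉ Set.range (theta (K := K) (J := J))) : term A B (theta x) r = 0 := by
  classical
  obtain ⟨k, l, a, hkl, ha⟩ := not_range_theta r h
  unfold term
  apply Finset.prod_eq_zero (mem_univ (some l))
  apply Finset.prod_eq_zero (mem_univ (some k))
  rw [pp_eq_zero, mul_zero]
  have h1 : (univ.filter fun a => theta x (some l) a = some k) = ∅ := by
    rw [Finset.filter_eq_empty_iff]
    intro b _
    simp only [theta]
    split_ifs
    · simp
    · simp [Ne.symm hkl]
  have h2 : (univ.filter fun b => r (some k) b = some l).card ≠ 0 := by
    apply Finset.card_ne_zero_of_mem (a := a)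
    simp [ha]
  intro h3
  apply h2
  rw [← Finset.card_empty (α := J), ← h1]
  convert h3.symm

omit [Fintype K] [DecidableEq K] in
theorem aux1 (x : ℂ) (p q : J → Prop) [DecidablePred p] (S R : Finset J) (B : J → J → ℂ)
    (hp : ∀ a, p a ↔ a ∈ S) (hq : ∀ b, q b ↔ b ∈ R) :
    x ^ (univ.filter p).card * pp B p q = x ^ S.card * GG B S R := by
  have h1 : univ.filter p = S := by ext a; simp [hp]
  have h2 : p = fun a => a ∈ S := by ext a; exact hp a
  have h3 : q = fun a => a ∈ R := by ext a; exact hq a
  rw [h1, h3]
  unfold GG
  congr 2

omit [Fintype K] [DecidableEq K] in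
theorem aux2 (x : ℂ) (p q : J → Prop) [DecidablePred p] (S R : Finset J) (B : J → J → ℂ)
    (hp : ∀ a, p a ↔ a ∉ S) (hq : ∀ b, q b ↔ b ∉ R) :
    x ^ (univ.filter p).card * pp B p q = x ^ (Fintype.card J - S.card) * VV B S R := by
  have h1 : univ.filter p = Sᶜ := by ext a; simp [hp]
  have h2 : p = fun a => a ∉ S := by ext a; exact hp a
  have h3 : q = fun a => a ∉ R := by ext a; exact hq a
  rw [h1, h3, Finset.card_compl]
  unfold VV
  congr 2

theorem term_theta (A : Option K → Option K → ℂ)
    (B : J → J → ℂ) (s r : J → Option K) (S R : K → Finset J) :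
    term A B (theta (s, S)) (theta (r, R)) =
      A none none ^ (fib s none).card * GG B (fib s none) (fib r none) *
      ∏ k, ((A none (some k) ^ (fib s (some k)).card * GG B (fib s (some k)) (R k)) *
        ((A (some k) none ^ (S k).card * GG B (S k) (fib r (some k))) *
        (A (some k) (some k) ^ (Fintype.card J - (S k).card) * VV B (S k) (R k)))) := by
  classical
  unfold term
  rw [Fintype.prod_option, Fintype.prod_option]
  rw [mul_assoc]
  refine congrArg₂ (· * ·) ?_ ?_
  · exact aux1 _ _ _ _ _ _ (by intro a; simp [theta, fib]) (by intro a; simp [theta, fib])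
  · rw [← Finset.prod_mul_distrib]
    refine Finset.prod_congr rfl fun k _ => ?_
    rw [Fintype.prod_option]
    have h1 : ∏ l : K, (A (some k) (some l) ^ (univ.filter (fun a => theta (s, S) (some k) a = some l)).card *
        pp B (fun a => theta (s, S) (some k) a = some l) (fun b => theta (r, R) (some l) b = some k)) =
        A (some k) (some k) ^ (Fintype.card J - (S k).card) * VV B (S k) (R k) := by
      rw [Finset.prod_eq_single k]
      · exact aux2 _ _ _ _ _ _ (by intro a; simp [theta]) (by intro a; simp [theta])
      · intro l _ hl
        have h2 : (univ.filter (fun a => theta (s, S) (some k) a = some l)) = ∅ := by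
          rw [Finset.filter_eq_empty_iff]
          intro b _
          simp only [theta]
          split_ifs
          · simp
          · simp [Ne.symm hl]
        rw [h2, Finset.card_empty, pow_zero, one_mul]
        apply pp_false
        · intro a
          simp only [theta]
          split_ifs
          · simp
          · simp [Ne.symm hl]
        · intro a
          simp only [theta]
          split_ifs
          · simp
          · simp [hl]
      · simp
    refine congrArg₂ (· * ·) ?_ (congrArg₂ (· * ·) ?_ ?_)
    · exact aux1 _ _ _ _ _ _ (by intro a; simp [theta, fib]) (by intro a; simp [theta])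
    · exact aux1 _ _ _ _ _ _ (by intro a; simp [theta]) (by intro a; simp [theta, fib])
    · refine Eq.trans ?_ h1
      refine Finset.prod_congr rfl fun l _ => ?_
      congr 2

/-- leaf sum -/
theorem leaf_sum (x y z : ℂ) (B : J → J → ℂ) (S R : Finset J) :
    ∑ S' : Finset J, ∑ R' : Finset J, ((x ^ S.card * GG B S R') *
        ((y ^ S'.card * GG B S' R) * (z ^ (Fintype.card J - S'.card) * VV B S' R'))) =
      (x * y) ^ S.card * z ^ (Fintype.card J - S.card) * HH B S R := by
  have h1 : ∀ S' R' : Finset J, (x ^ S.card * GG B S R') *
        ((y ^ S'.card * GG B S' R) * (z ^ (Fintype.card J - S'.card) * VV B S' R')) =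
        (x * y) ^ S.card * z ^ (Fintype.card J - S.card) *
          (GG B S R' * VV B S' R' * GG B S' R) := by
    intro S' R'
    by_cases h1 : S.card = R'.card
    · by_cases h2 : S'.card = R'.card
      · have h3 : S'.card = S.card := by omega
        rw [h3]; ring
      · rw [VV_eq_zero _ _ _ h2]; ring
    · rw [GG_eq_zero _ _ _ h1]; ring
  simp_rw [h1, ← Finset.mul_sum]
  congr 1
  unfold HH
  simp_rw [Matrix.mul_apply, Matrix.transpose_apply, Finset.sum_mul]

theorem star_expand (A : Option K → Option K → ℂ) (hA : ∀ k l, k ≠ l → A (some k) (some l) = 0)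
    (B : J → J → ℂ) [Fintype (Option K × J ≃ Option K × J)] :
    ∑ σ : Option K × J ≃ Option K × J, ∏ x, (A x.1 (σ x).1 * B x.2 (σ x).2) =
      ∑ s : J → Option K, ∑ r : J → Option K,
        (A none none ^ (fib s none).card * GG B (fib s none) (fib r none) *
        ∏ k, ((A none (some k) * A (some k) none) ^ (fib s (some k)).card *
          A (some k) (some k) ^ (Fintype.card J - (fib s (some k)).card) *
          HH B (fib s (some k)) (fib r (some k)))) := by
  classical
  have h0 := kron_expand A B
  refine h0.trans ?_
  have h1 : ∑ s : Option K → J → Option K, ∑ r : Option K → J → Option K, term A B s r =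
      ∑ x : (J → Option K) × (K → Finset J), ∑ y : (J → Option K) × (K → Finset J),
        term A B (theta x) (theta y) := by
    rw [← Fintype.sum_of_injective (theta (K := K) (J := J)) theta_injective
      (fun x => ∑ r : Option K → J → Option K, term A B (theta x) r)
      (fun s => ∑ r : Option K → J → Option K, term A B s r)]
    · refine Finset.sum_congr rfl fun x _ => ?_
      rw [← Fintype.sum_of_injective (theta (K := K) (J := J)) theta_injective
        (fun y => term A B (theta x) (theta y))
        (fun r => term A B (theta x) r)]
      · intro r hr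
        exact term_zero_right A B x r hr
      · intro y; rfl
    · intro s hs
      apply Finset.sum_eq_zero
      intro r _
      exact term_zero_left A hA B s r hs
    · intro y; rfl
  refine Eq.trans ?_ (h1.trans ?_)
  · unfold term
    refine Finset.sum_congr (univ_inst _ _) fun s _ => ?_
    refine Finset.sum_congr (univ_inst _ _) fun r _ => ?_
    refine Finset.prod_congr rfl fun i _ => Finset.prod_congr rfl fun i' _ => ?_
    congr 3
    exact Finset.filter_congr_decidable _ _ _
  · simp_rw [Fintype.sum_prod_type]
    refine Finset.sum_congr rfl fun s _ => ?_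
    rw [Finset.sum_comm]
    refine Finset.sum_congr rfl fun r _ => ?_
    simp_rw [term_theta, ← Finset.mul_sum]
    congr 1
    simp_rw [← leaf_sum]
    rw [Finset.prod_univ_sum]
    rw [Fintype.piFinset_univ]
    refine Finset.sum_congr rfl fun S _ => ?_
    rw [Finset.prod_univ_sum]
    rw [Fintype.piFinset_univ]

end star

end Pool.Agent.helper16.LSZ
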