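import Mathlib
import Pool.Agent.helper16.LSZ.Star

/-!
The matrices of partial permanents of a positive semidefinite matrix are positive semidefinite.
-/

open Finset BigOperators
open scoped ComplexOrder

namespace Pool.Agent.helper16.LSZ

section factor

open scoped MatrixOrder Matrix.Norms.L2Operator

theorem exists_factor {n : Type*} [Fintype n] [DecidableEq n] {A : Matrix n n ℂ}
    (hA : A.PosSemidef) : ∃ C : Matrix n n ℂ, A = C.conjTranspose * C := by
  obtain ⟨a, rfl⟩ := CStarAlgebra.nonneg_iff_eq_star_mul_self.mp hA.nonneg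
  exact ⟨a, rfl⟩

end factor

section psd

variable {J : Type*} [Fintype J] [DecidableEq J]

omit [DecidableEq J] in
theorem GG_eq' (B : J → J → ℂ) (S R : Finset J) [Fintype ({a // a ∈ S} ≃ {a // a ∈ R})]
    [Fintype {a // a ∈ S}] :
    GG B S R = ∑ e : {a // a ∈ S} ≃ {a // a ∈ R}, ∏ a : {a // a ∈ S}, B a.1 (e a).1 := by
  unfold GG pp
  refine Finset.sum_congr (univ_inst _ _) fun e _ => ?_
  exact Finset.prod_congr (univ_inst _ _) fun a _ => rfl

open Classical in
/-- columns of the j-th symmetric power -/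
noncomputable def PP (C : Matrix J J ℂ) (j : ℕ) : Matrix (Fin j → J) (Finset J) ℂ :=
  fun φ S => ∑ u : Fin j ≃ {a // a ∈ S}, ∏ t, C (φ t) (u t).1

open Classical in
theorem PP_mul (C : Matrix J J ℂ) (j : ℕ) (S R : Finset J) :
    ((PP C j).conjTranspose * PP C j) S R =
      (if j = S.card then (j.factorial : ℂ) else 0) * GG (C.conjTranspose * C) S R := by
  rw [Matrix.mul_apply]
  simp_rw [Matrix.conjTranspose_apply, PP, star_sum, star_prod]
  simp_rw [Finset.sum_mul_sum]
  rw [Finset.sum_comm]
  have h0 : ∀ u : Fin j ≃ {a // a ∈ S}, ∑ φ : Fin j → J, ∑ v : Fin j ≃ {a // a ∈ R},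
      (∏ t, star (C (φ t) (u t).1)) * ∏ t, C (φ t) (v t).1 = GG (C.conjTranspose * C) S R := by
    intro u
    rw [Finset.sum_comm]
    have h1 : ∀ v : Fin j ≃ {a // a ∈ R}, ∑ φ : Fin j → J,
        (∏ t, star (C (φ t) (u t).1)) * ∏ t, C (φ t) (v t).1 =
        ∏ t, (C.conjTranspose * C) (u t).1 (v t).1 := by
      intro v
      simp_rw [← Finset.prod_mul_distrib, Matrix.mul_apply, Matrix.conjTranspose_apply]
      rw [Finset.prod_univ_sum, Fintype.piFinset_univ]
    simp_rw [h1]
    rw [GG_eq']
    refine Fintype.sum_equiv (Equiv.equivCongr u (Equiv.refl _)) _ _ fun v => ?_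
    refine Fintype.prod_equiv u _ _ fun t => ?_
    simp
  rw [Finset.sum_congr rfl fun u _ => h0 u]
  rw [Finset.sum_const, nsmul_eq_mul]
  congr 1
  rw [Finset.card_univ]
  split_ifs with h
  · rw [Fintype.card_equiv (Fintype.equivOfCardEq (by simp [h]))]
    simp
  · have : IsEmpty (Fin j ≃ {a // a ∈ S}) := ⟨fun e => h (by simpa using Fintype.card_congr e)⟩
    simp

theorem GG_posSemidef (B : Matrix J J ℂ) (hB : B.PosSemidef) : (GG B).PosSemidef := by
  classical
  obtain ⟨C, rfl⟩ := exists_factor hB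
  have h : GG (C.conjTranspose * C) = ∑ j ∈ Finset.range (Fintype.card J + 1),
      ((j.factorial : ℂ)⁻¹) • ((PP C j).conjTranspose * PP C j) := by
    ext S R
    rw [Matrix.sum_apply]
    simp_rw [Matrix.smul_apply, PP_mul, smul_eq_mul]
    rw [Finset.sum_eq_single S.card]
    · rw [if_pos rfl, ← mul_assoc, inv_mul_cancel₀, one_mul]
      exact_mod_cast Nat.factorial_ne_zero _
    · intro j _ hj
      rw [if_neg hj]; simp
    · intro hS
      exfalso
      apply hS
      rw [Finset.mem_range]
      have := Finset.card_le_univ S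
      omega
  rw [h]
  apply Matrix.posSemidef_sum
  intro j _
  apply Matrix.PosSemidef.smul (Matrix.posSemidef_conjTranspose_mul_self _)
  rw [← Complex.ofReal_natCast, ← Complex.ofReal_inv]
  exact_mod_cast (by positivity : (0:ℝ) ≤ ((j.factorial : ℕ) : ℝ)⁻¹)

theorem VV_eq (B : J → J → ℂ) : VV B = (GG B).submatrix compl compl := by
  ext S R
  unfold VV GG
  rw [Matrix.submatrix_apply]
  congr 1 <;> ext a <;> simp

theorem VV_posSemidef (B : Matrix J J ℂ) (hB : B.PosSemidef) : (VV B).PosSemidef := by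
  rw [VV_eq]
  exact (GG_posSemidef B hB).submatrix _

end psd

end Pool.Agent.helper16.LSZ
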