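import Mathlib
import Pool.Agent.helper16.LSZ.Psd

/-!
Simultaneous diagonalisation, an entropy inequality and the abstract inequality for stars.
-/

open Finset BigOperators
open scoped ComplexOrder

namespace Pool.Agent.helper16.LSZ

section diag

variable {X : Type*} [Fintype X] [DecidableEq X]

theorem sim_diag {G W : Matrix X X ℂ} (hG : G.PosSemidef) (hW : W.PosSemidef) :
    ∃ (w : X → X → ℂ) (lam : X → ℝ), (∀ x, 0 ≤ lam x) ∧
      (∀ S R, G S R = ∑ x, w x S * star (w x R)) ∧
      (∀ S R, (G * W * G) S R = ∑ x, (lam x : ℂ) * (w x S * star (w x R))) ∧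
      (∀ x, ∑ S, ∑ R, star (w x S) * W S R * w x R = lam x) := by
  obtain ⟨C, rfl⟩ := exists_factor hG
  have hσ : (C * W * C.conjTranspose).PosSemidef := hW.mul_mul_conjTranspose_same C
  set U : Matrix X X ℂ := (hσ.1.eigenvectorUnitary : Matrix X X ℂ) with hU
  have hUU : U * U.conjTranspose = 1 := by
    rw [hU]
    exact Unitary.coe_mul_star_self hσ.1.eigenvectorUnitary
  have hUU' : U.conjTranspose * U = 1 := by
    rw [hU]
    exact Unitary.coe_star_mul_self hσ.1.eigenvectorUnitary
  set D : Matrix X X ℂ := Matrix.diagonal (fun x => ((hσ.1.eigenvalues x : ℝ) : ℂ)) with hD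
  have hspec : C * W * C.conjTranspose = U * D * U.conjTranspose := by
    have := hσ.1.spectral_theorem
    rw [Unitary.conjStarAlgAut_apply] at this
    exact this
  set N : Matrix X X ℂ := C.conjTranspose * U with hN
  refine ⟨fun x S => N S x, fun x => hσ.1.eigenvalues x, fun x => hσ.eigenvalues_nonneg x,
    ?_, ?_, ?_⟩
  · intro S R
    have h1 : C.conjTranspose * C = N * N.conjTranspose := by
      rw [hN, Matrix.conjTranspose_mul, Matrix.conjTranspose_conjTranspose]
      calc C.conjTranspose * C = C.conjTranspose * (U * U.conjTranspose) * C := by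
            rw [hUU, Matrix.mul_one]
        _ = _ := by simp only [Matrix.mul_assoc]
    rw [h1, Matrix.mul_apply]
    simp [Matrix.conjTranspose_apply]
  · intro S R
    have h1 : C.conjTranspose * C * W * (C.conjTranspose * C) = N * D * N.conjTranspose := by
      rw [hN, Matrix.conjTranspose_mul, Matrix.conjTranspose_conjTranspose]
      calc C.conjTranspose * C * W * (C.conjTranspose * C) =
          C.conjTranspose * (C * W * C.conjTranspose) * C := by simp only [Matrix.mul_assoc]
        _ = _ := by rw [hspec]; simp only [Matrix.mul_assoc]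
    rw [h1, Matrix.mul_apply]
    refine Finset.sum_congr rfl fun x _ => ?_
    rw [hD, Matrix.mul_diagonal, Matrix.conjTranspose_apply]
    ring
  · intro x
    have h1 : N.conjTranspose * W * N = D := by
      rw [hN, Matrix.conjTranspose_mul, Matrix.conjTranspose_conjTranspose]
      calc U.conjTranspose * C * W * (C.conjTranspose * U) =
          U.conjTranspose * (C * W * C.conjTranspose) * U := by simp only [Matrix.mul_assoc]
        _ = (U.conjTranspose * U) * D * (U.conjTranspose * U) := by
            rw [hspec]; simp only [Matrix.mul_assoc]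
        _ = D := by rw [hUU', Matrix.one_mul, Matrix.mul_one]
    have h2 : (N.conjTranspose * W * N) x x = ((hσ.1.eigenvalues x : ℝ) : ℂ) := by
      rw [h1, hD, Matrix.diagonal_apply_eq]
    rw [← h2, Matrix.mul_apply, Finset.sum_comm]
    refine Finset.sum_congr rfl fun R _ => ?_
    rw [Matrix.mul_apply, Finset.sum_mul]
    refine Finset.sum_congr rfl fun S _ => ?_
    rw [Matrix.conjTranspose_apply]

end diag

section entropy

variable {K : Type*} [Fintype K] [DecidableEq K] {X : K → Type*} [∀ k, Fintype (X k)]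
  [∀ k, DecidableEq (X k)]

omit [DecidableEq K] in
theorem prod_ge (y : K → ℝ) (hy : ∀ k, 0 < y k) : 1 + ∑ k, (1 - (y k)⁻¹) ≤ ∏ k, y k := by
  have h1 : 0 < ∏ k, y k := Finset.prod_pos fun k _ => hy k
  have h2 := Real.add_one_le_exp (Real.log (∏ k, y k))
  rw [Real.exp_log h1, Real.log_prod (fun k _ => (hy k).ne')] at h2
  have h3 : ∑ k, (1 - (y k)⁻¹) ≤ ∑ k, Real.log (y k) :=
    Finset.sum_le_sum fun k _ => Real.one_sub_inv_le_log_of_pos (hy k)
  linarith

/-- marginal -/
def marg (d : (∀ k, X k) → ℝ) (k : K) (x : X k) : ℝ := ∑ l, if l k = x then d l else 0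

theorem entropy_ineq (d : (∀ k, X k) → ℝ) (hd : ∀ l, 0 ≤ d l) :
    (∑ l, d l) ^ (1 + Fintype.card K) ≤
      (∏ k, (Fintype.card (X k) : ℝ)) * ∑ l, d l * ∏ k, marg d k (l k) := by
  set D := ∑ l, d l with hD
  have hmnn : ∀ k x, 0 ≤ marg d k x := by
    intro k x
    unfold marg
    apply Finset.sum_nonneg
    intro l _
    split_ifs
    · exact hd l
    · exact le_rfl
  have hDnn : 0 ≤ D := Finset.sum_nonneg fun l _ => hd l
  rcases hDnn.eq_or_lt with h0 | hpos
  · rw [← h0, zero_pow (by omega)]
    apply mul_nonneg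
    · exact Finset.prod_nonneg fun k _ => Nat.cast_nonneg _
    · exact Finset.sum_nonneg fun l _ => mul_nonneg (hd l) (Finset.prod_nonneg fun k _ => hmnn _ _)
  -- positivity of the marginals
  have hm : ∀ l, 0 < d l → ∀ k, 0 < marg d k (l k) := by
    intro l hl k
    unfold marg
    apply lt_of_lt_of_le hl
    have : d l = if l k = l k then d l else 0 := by simp
    rw [this]
    apply Finset.single_le_sum (f := fun l' => if l' k = l k then d l' else 0) ?_ (mem_univ l)
    intro l' _
    split_ifs
    · exact hd l'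
    · exact le_rfl
  have hex : ∃ l, 0 < d l := by
    by_contra hcon
    push Not at hcon
    have : D ≤ 0 := Finset.sum_nonpos fun l _ => hcon l
    linarith
  obtain ⟨l0, _⟩ := hex
  have hX : ∀ k, 0 < (Fintype.card (X k) : ℝ) := by
    intro k
    have : Nonempty (X k) := ⟨l0 k⟩
    exact_mod_cast Fintype.card_pos
  -- pointwise inequality
  have hpt : ∀ l, d l * (1 + ∑ k, (1 - ((Fintype.card (X k) : ℝ) * (marg d k (l k) / D))⁻¹)) ≤
      d l * ∏ k, ((Fintype.card (X k) : ℝ) * (marg d k (l k) / D)) := by
    intro l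
    rcases (hd l).eq_or_lt with h | h
    · rw [← h]; simp
    · apply mul_le_mul_of_nonneg_left _ h.le
      apply prod_ge
      intro k
      exact mul_pos (hX k) (div_pos (hm l h k) hpos)
  have hsum := Finset.sum_le_sum fun l (_ : l ∈ (univ : Finset (∀ k, X k))) => hpt l
  -- left side is at least D
  have hleft : D ≤ ∑ l, d l * (1 + ∑ k, (1 - ((Fintype.card (X k) : ℝ) * (marg d k (l k) / D))⁻¹)) := by
    have h1 : ∀ l, d l * (1 + ∑ k, (1 - ((Fintype.card (X k) : ℝ) * (marg d k (l k) / D))⁻¹)) =
        d l + ∑ k, d l * (1 - ((Fintype.card (X k) : ℝ) * (marg d k (l k) / D))⁻¹) := by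
      intro l
      rw [mul_add, mul_one, Finset.mul_sum]
    rw [Finset.sum_congr rfl fun l _ => h1 l, Finset.sum_add_distrib]
    have h2 : 0 ≤ ∑ l : (∀ k, X k), ∑ k, d l * (1 - ((Fintype.card (X k) : ℝ) * (marg d k (l k) / D))⁻¹) := by
      rw [Finset.sum_comm]
      apply Finset.sum_nonneg
      intro k _
      have h3 : ∀ l : (∀ k, X k), d l * (1 - ((Fintype.card (X k) : ℝ) * (marg d k (l k) / D))⁻¹) =
          d l - ∑ x : X k, (if l k = x then d l * ((Fintype.card (X k) : ℝ) * (marg d k x / D))⁻¹ else 0) := by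
        intro l
        rw [Finset.sum_ite_eq]
        simp
        ring
      rw [Finset.sum_congr rfl fun l _ => h3 l, Finset.sum_sub_distrib, Finset.sum_comm]
      have h4 : ∀ x : X k, ∑ l : (∀ k, X k), (if l k = x then d l * ((Fintype.card (X k) : ℝ) * (marg d k x / D))⁻¹ else 0) ≤
          D / Fintype.card (X k) := by
        intro x
        have h5 : ∑ l : (∀ k, X k), (if l k = x then d l * ((Fintype.card (X k) : ℝ) * (marg d k x / D))⁻¹ else 0) =
            marg d k x * ((Fintype.card (X k) : ℝ) * (marg d k x / D))⁻¹ := by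
          unfold marg
          rw [Finset.sum_mul]
          refine Finset.sum_congr rfl fun l _ => ?_
          split_ifs
          · rfl
          · simp
        rw [h5]
        rcases (hmnn k x).eq_or_lt with h | h
        · rw [← h]
          simp only [zero_mul]
          exact div_nonneg hDnn (hX k).le
        · have := hX k
          apply le_of_eq
          field_simp
      have h6 : ∑ x : X k, ∑ l : (∀ k, X k), (if l k = x then d l * ((Fintype.card (X k) : ℝ) * (marg d k x / D))⁻¹ else 0) ≤
          ∑ x : X k, D / Fintype.card (X k) := Finset.sum_le_sum fun x _ => h4 x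
      rw [Finset.sum_const, nsmul_eq_mul, Finset.card_univ, mul_div_cancel₀ _ (hX k).ne'] at h6
      linarith
    linarith
  have hright : ∑ l, d l * ∏ k, ((Fintype.card (X k) : ℝ) * (marg d k (l k) / D)) =
      (∏ k, (Fintype.card (X k) : ℝ)) * (∑ l, d l * ∏ k, marg d k (l k)) / D ^ Fintype.card K := by
    rw [Finset.mul_sum, Finset.sum_div]
    refine Finset.sum_congr rfl fun l _ => ?_
    rw [Finset.prod_mul_distrib, Finset.prod_div_distrib]
    simp
    ring
  rw [hright] at hsum
  have hfin := hleft.trans hsum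
  rw [le_div_iff₀ (pow_pos hpos _)] at hfin
  calc D ^ (1 + Fintype.card K) = D * D ^ Fintype.card K := by ring
    _ ≤ _ := hfin

end entropy

end Pool.Agent.helper16.LSZ
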