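import Mathlib
import Pool.Agent.helper16.LSZ.Ineq

/-!
The abstract inequality for star tensor networks.
-/

open Finset BigOperators
open scoped ComplexOrder

namespace Pool.Agent.helper16.LSZ

section abs

variable {F K : Type*} [Fintype F] [Fintype K] [DecidableEq K] {X : K → Type*}
  [∀ k, Fintype (X k)] [∀ k, DecidableEq (X k)]

omit [∀ k, DecidableEq (X k)] in
theorem sum_pi_eq_single (f : ∀ k, X k → ℂ) (k : K) (x : X k) [∀ l : (∀ k, X k), Decidable (l k = x)] :
    ∑ l : (∀ k, X k), (if l k = x then ∏ j, f j (l j) else 0) =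
      f k x * ∏ j ∈ univ.erase k, ∑ y, f j y := by
  classical
  have h1 : (univ.filter fun l : (∀ k, X k) => l k = x) =
      Fintype.piFinset (Function.update (fun j => (univ : Finset (X j))) k {x}) := by
    ext l
    simp only [mem_filter, mem_univ, true_and, Fintype.mem_piFinset]
    constructor
    · intro h j
      by_cases hj : j = k
      · subst hj; simp [h]
      · simp [Function.update_of_ne hj]
    · intro h
      have := h k
      simpa using this
  rw [← Finset.sum_filter]
  have h2 : (univ.filter fun l : (∀ k, X k) => l k = x) =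
      @Finset.filter _ (fun l : (∀ k, X k) => l k = x) (fun l => Classical.propDecidable _) univ := by
    congr!
  rw [h2]
  have h3 : @Finset.filter _ (fun l : (∀ k, X k) => l k = x) (fun l => Classical.propDecidable _) univ =
      Fintype.piFinset (Function.update (fun j => (univ : Finset (X j))) k {x}) := by
    rw [← h1]; congr!
  rw [h3, ← Finset.prod_univ_sum, ← Finset.mul_prod_erase univ _ (mem_univ k)]
  congr 1
  · simp
  · refine Finset.prod_congr rfl fun j hj => ?_
    rw [Function.update_of_ne (Finset.ne_of_mem_erase hj)]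

theorem abs_ineq (φ : ∀ k, F → X k) (M : Matrix F F ℂ) (hM : M.PosSemidef)
    (G W : ∀ k, Matrix (X k) (X k) ℂ) (hG : ∀ k, (G k).PosSemidef) (hW : ∀ k, (W k).PosSemidef)
    (P : ℝ) (μ : K → ℝ)
    (ha : ∀ k, ∀ S R : X k, ∑ s, ∑ r, (if φ k s = S then (if φ k r = R then
      M s r * ∏ l ∈ univ.erase k, G l (φ l s) (φ l r) else 0) else 0) = (μ k : ℂ) * W k R S)
    (hb : ∑ s, ∑ r, M s r * ∏ l, G l (φ l s) (φ l r) = (Fintype.card F : ℂ) * P)
    (hc : ∀ k, μ k * Fintype.card (X k) = Fintype.card F) :
    ∃ T : ℝ, ∑ s, ∑ r, M s r * ∏ k, (G k * W k * G k) (φ k s) (φ k r) = (T : ℂ) ∧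
      Fintype.card F * P ^ (1 + Fintype.card K) ≤ T := by
  have hsd := fun k => sim_diag (hG k) (hW k)
  choose w lam hlam hGw hGWG hdiag using hsd
  -- the weights d
  have hd0 : ∀ l : (∀ k, X k), 0 ≤ ∑ s, ∑ r, M s r *
      ∏ k, (w k (l k) (φ k s) * star (w k (l k) (φ k r))) := by
    intro l
    have := hM.dotProduct_mulVec_nonneg (fun r => ∏ k, star (w k (l k) (φ k r)))
    convert this using 1
    unfold dotProduct Matrix.mulVec dotProduct
    refine Finset.sum_congr rfl fun s _ => ?_
    rw [Finset.mul_sum]
    refine Finset.sum_congr rfl fun r _ => ?_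
    rw [Pi.star_apply, star_prod, Finset.prod_mul_distrib]
    simp only [star_star]
    ring
  let d : (∀ k, X k) → ℝ := fun l => (∑ s, ∑ r, M s r *
      ∏ k, (w k (l k) (φ k s) * star (w k (l k) (φ k r)))).re
  have hd : ∀ l, ((d l : ℝ) : ℂ) = ∑ s, ∑ r, M s r *
      ∏ k, (w k (l k) (φ k s) * star (w k (l k) (φ k r))) := by
    intro l
    have h := hd0 l
    rw [Complex.le_def] at h
    apply Complex.ext
    · simp [d]
    · simp only [Complex.ofReal_im]
      exact h.2
  have hdnn : ∀ l, 0 ≤ d l := fun l => (Complex.le_def.mp (hd0 l)).1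
  -- total mass
  have htot : ∑ l, d l = Fintype.card F * P := by
    have h1 : ((∑ l, d l : ℝ) : ℂ) = (Fintype.card F : ℂ) * P := by
      rw [← hb]
      push_cast
      simp_rw [hd]
      rw [Finset.sum_comm]
      refine Finset.sum_congr rfl fun s _ => ?_
      rw [Finset.sum_comm]
      refine Finset.sum_congr rfl fun r _ => ?_
      rw [← Finset.mul_sum]
      congr 1
      simp_rw [hGw]
      rw [Finset.prod_univ_sum, Fintype.piFinset_univ]
    exact_mod_cast h1
  -- marginals
  have hmarg : ∀ k x, marg d k x = μ k * lam k x := by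
    intro k x
    have h1 : ((marg d k x : ℝ) : ℂ) = (μ k : ℂ) * lam k x := by
      unfold marg
      push_cast
      have h2 : ∀ l : (∀ k, X k), (((if l k = x then d l else 0 : ℝ)) : ℂ) =
          ∑ s, ∑ r, M s r * (if l k = x then
            ∏ k, (w k (l k) (φ k s) * star (w k (l k) (φ k r))) else 0) := by
        intro l
        split_ifs with h
        · exact hd l
        · simp
      rw [Finset.sum_congr rfl fun l _ => h2 l, Finset.sum_comm]
      have h3 : ∀ s, ∑ l : (∀ k, X k), ∑ r, M s r * (if l k = x then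
            ∏ k, (w k (l k) (φ k s) * star (w k (l k) (φ k r))) else 0) =
          ∑ r, M s r * ((w k x (φ k s) * star (w k x (φ k r))) *
            ∏ j ∈ univ.erase k, G j (φ j s) (φ j r)) := by
        intro s
        rw [Finset.sum_comm]
        refine Finset.sum_congr rfl fun r _ => ?_
        rw [← Finset.mul_sum]
        congr 1
        rw [sum_pi_eq_single (fun j y => w j y (φ j s) * star (w j y (φ j r))) k x]
        congr 1
        refine Finset.prod_congr rfl fun j _ => ?_
        rw [hGw]
      rw [Finset.sum_congr rfl fun s _ => h3 s]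
      have h4 : ∀ s r, M s r * ((w k x (φ k s) * star (w k x (φ k r))) *
            ∏ j ∈ univ.erase k, G j (φ j s) (φ j r)) =
          ∑ S, ∑ R, (w k x S * star (w k x R)) * (if φ k s = S then (if φ k r = R then
            M s r * ∏ l ∈ univ.erase k, G l (φ l s) (φ l r) else 0) else 0) := by
        intro s r
        rw [Finset.sum_eq_single (φ k s)]
        · rw [Finset.sum_eq_single (φ k r)]
          · simp only [if_true]
            ring
          · intro R _ hR
            rw [if_neg (Ne.symm hR)]; simp
          · simp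
        · intro S _ hS
          apply Finset.sum_eq_zero
          intro R _
          rw [if_neg (Ne.symm hS)]; simp
        · simp
      simp_rw [h4]
      have h5 : ∑ s, ∑ r, ∑ S, ∑ R, (w k x S * star (w k x R)) * (if φ k s = S then (if φ k r = R then
            M s r * ∏ l ∈ univ.erase k, G l (φ l s) (φ l r) else 0) else 0) =
          ∑ S, ∑ R, (w k x S * star (w k x R)) * ∑ s, ∑ r, (if φ k s = S then (if φ k r = R then
            M s r * ∏ l ∈ univ.erase k, G l (φ l s) (φ l r) else 0) else 0) := by
        simp_rw [Finset.mul_sum]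
        have e1 : ∀ s, ∑ r, ∑ S, ∑ R, (w k x S * star (w k x R)) * (if φ k s = S then (if φ k r = R then
            M s r * ∏ l ∈ univ.erase k, G l (φ l s) (φ l r) else 0) else 0) =
            ∑ S, ∑ R, ∑ r, (w k x S * star (w k x R)) * (if φ k s = S then (if φ k r = R then
            M s r * ∏ l ∈ univ.erase k, G l (φ l s) (φ l r) else 0) else 0) := by
          intro s
          rw [Finset.sum_comm]
          refine Finset.sum_congr rfl fun S _ => Finset.sum_comm
        rw [Finset.sum_congr rfl fun s _ => e1 s, Finset.sum_comm]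
        refine Finset.sum_congr rfl fun S _ => Finset.sum_comm
      rw [h5]
      simp_rw [ha]
      rw [← hdiag k x, Finset.mul_sum, Finset.sum_comm]
      refine Finset.sum_congr rfl fun S _ => ?_
      rw [Finset.mul_sum]
      refine Finset.sum_congr rfl fun R _ => ?_
      ring
    exact_mod_cast h1
  -- T
  let T : ℝ := ∑ l, (∏ k, lam k (l k)) * d l
  have hT : ∑ s, ∑ r, M s r * ∏ k, (G k * W k * G k) (φ k s) (φ k r) = (T : ℂ) := by
    simp only [T]
    push_cast
    simp_rw [hd, Finset.mul_sum]
    symm
    rw [Finset.sum_comm]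
    refine Finset.sum_congr rfl fun s _ => ?_
    rw [Finset.sum_comm]
    refine Finset.sum_congr rfl fun r _ => ?_
    simp_rw [hGWG]
    rw [Finset.prod_univ_sum, Fintype.piFinset_univ, Finset.mul_sum]
    refine Finset.sum_congr rfl fun l _ => ?_
    have h9 : ∏ x, ((lam x (l x) : ℂ) * (w x (l x) (φ x s) * star (w x (l x) (φ x r)))) =
        (∏ x, (lam x (l x) : ℂ)) * ∏ x, (w x (l x) (φ x s) * star (w x (l x) (φ x r))) :=
      Finset.prod_mul_distrib
    rw [h9]
    ring
  refine ⟨T, hT, ?_⟩
  rcases Nat.eq_zero_or_pos (Fintype.card F) with h0 | hpos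
  · rw [h0]
    simp only [CharP.cast_eq_zero, zero_mul]
    exact Finset.sum_nonneg fun l _ => mul_nonneg (Finset.prod_nonneg fun k _ => hlam k _) (hdnn l)
  have hF : (0 : ℝ) < Fintype.card F := by exact_mod_cast hpos
  have hent := entropy_ineq d hdnn
  rw [htot] at hent
  have h1 : (∏ k, (Fintype.card (X k) : ℝ)) * ∑ l, d l * ∏ k, marg d k (l k) =
      (Fintype.card F : ℝ) ^ Fintype.card K * T := by
    simp_rw [hmarg, Finset.prod_mul_distrib]
    have h2 : (Fintype.card F : ℝ) ^ Fintype.card K = ∏ k, (μ k * Fintype.card (X k)) := by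
      simp_rw [hc]; simp
    rw [h2, Finset.prod_mul_distrib]
    simp only [T]
    rw [Finset.mul_sum, Finset.mul_sum]
    refine Finset.sum_congr rfl fun l _ => ?_
    ring
  rw [h1, mul_pow, pow_add (Fintype.card F : ℝ), pow_one] at hent
  have h3 : (Fintype.card F : ℝ) ^ Fintype.card K * (Fintype.card F * P ^ (1 + Fintype.card K)) ≤
      (Fintype.card F : ℝ) ^ Fintype.card K * T := by
    calc _ = (Fintype.card F : ℝ) * (Fintype.card F : ℝ) ^ Fintype.card K * P ^ (1 + Fintype.card K) := by ring
      _ ≤ _ := hent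
  exact le_of_mul_le_mul_left h3 (pow_pos hF _)

end abs

end Pool.Agent.helper16.LSZ
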