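import Pool.Agent.helper80.LSZ.Pate

set_option linter.all false
set_option autoImplicit false

/-!
# Fock inner product on polynomials, adjoint of multiplication, Wick expansion (MP_2dd521_co)
-/

namespace Pool.Agent.helper16.Fock

open MvPolynomial Finset MeasureTheory
open scoped ComplexConjugate
open Pool.Agent.helper80.LSZ

variable {ι : Type*} [Fintype ι] [DecidableEq ι]

theorem eval_mem (p : MvPolynomial ι ℂ) : (fun z : ι → ℂ => eval z p) ∈ PolA ι := by
  induction p using MvPolynomial.induction_on with
  | C a => simpa using const_mem (ι := ι) a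
  | add p q hp hq =>
    have := add_mem' hp hq
    simpa using this
  | mul_X p i hp =>
    have := mul_mem' hp (coord_mem i)
    simpa using this

theorem conj_eval_mem (p : MvPolynomial ι ℂ) : (fun z : ι → ℂ => conj (eval z p)) ∈ PolA ι := by
  induction p using MvPolynomial.induction_on with
  | C a => simpa using const_mem (ι := ι) (conj a)
  | add p q hp hq =>
    have := add_mem' hp hq
    simpa using this
  | mul_X p i hp =>
    have := mul_mem' hp (conj_coord_mem i)
    simpa using this

/-- Fock inner product, conjugate-linear in the first argument -/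
noncomputable def ip (p q : MvPolynomial ι ℂ) : ℂ := E (fun z => conj (eval z p) * eval z q)

theorem ip_mem (p q : MvPolynomial ι ℂ) :
    (fun z : ι → ℂ => conj (eval z p) * eval z q) ∈ PolA ι :=
  mul_mem' (conj_eval_mem p) (eval_mem q)

theorem ip_add_right (p q r : MvPolynomial ι ℂ) : ip p (q + r) = ip p q + ip p r := by
  unfold ip
  rw [← E_add (ip_mem p q) (ip_mem p r)]
  congr 1
  ext z
  rw [map_add, mul_add]

theorem ip_add_left (p q r : MvPolynomial ι ℂ) : ip (p + q) r = ip p r + ip q r := by
  unfold ip
  rw [← E_add (ip_mem p r) (ip_mem q r)]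
  congr 1
  ext z
  rw [map_add, map_add, add_mul]

theorem ip_smul_right (c : ℂ) (p q : MvPolynomial ι ℂ) : ip p (C c * q) = c * ip p q := by
  unfold ip
  rw [← E_smul]
  congr 1
  ext z
  rw [map_mul, eval_C]
  ring

theorem ip_smul_left (c : ℂ) (p q : MvPolynomial ι ℂ) : ip (C c * p) q = conj c * ip p q := by
  unfold ip
  rw [← E_smul]
  congr 1
  ext z
  rw [map_mul, eval_C, map_mul]
  ring

theorem ip_zero_right (p : MvPolynomial ι ℂ) : ip p 0 = 0 := by
  have := ip_smul_right 0 p 0
  simpa using this

theorem ip_zero_left (p : MvPolynomial ι ℂ) : ip 0 p = 0 := by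
  have := ip_smul_left 0 0 p
  simpa using this

theorem ip_sum_right {A : Type*} (s : Finset A) (p : MvPolynomial ι ℂ)
    (q : A → MvPolynomial ι ℂ) : ip p (∑ a ∈ s, q a) = ∑ a ∈ s, ip p (q a) := by
  classical
  induction s using Finset.induction_on with
  | empty => simp [ip_zero_right]
  | insert a s ha ih => rw [Finset.sum_insert ha, Finset.sum_insert ha, ip_add_right, ih]

theorem ip_sum_left {A : Type*} (s : Finset A) (q : MvPolynomial ι ℂ)
    (p : A → MvPolynomial ι ℂ) : ip (∑ a ∈ s, p a) q = ∑ a ∈ s, ip (p a) q := by
  classical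
  induction s using Finset.induction_on with
  | empty => simp [ip_zero_left]
  | insert a s ha ih => rw [Finset.sum_insert ha, Finset.sum_insert ha, ip_add_left, ih]

/-- weight of a monomial -/
noncomputable def w (d : ι →₀ ℕ) : ℂ := ∏ i, ((d i).factorial : ℂ)

theorem w_ne (d : ι →₀ ℕ) : w d ≠ 0 :=
  Finset.prod_ne_zero_iff.2 (fun i _ => by exact_mod_cast Nat.factorial_ne_zero _)

theorem w_conj (d : ι →₀ ℕ) : conj (w d) = w d := by
  unfold w
  rw [map_prod]
  simp

theorem ip_monomial (d e : ι →₀ ℕ) (a b : ℂ) :
    ip (monomial d a) (monomial e b) = if d = e then conj a * b * w d else 0 := by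
  classical
  unfold ip
  have h : (fun z : ι → ℂ => conj (eval z (monomial d a)) * eval z (monomial e b)) =
      fun z => (conj a * b) * mono (fun i => e i) (fun i => d i) z := by
    ext z
    rw [eval_monomial, eval_monomial, Finsupp.prod_fintype _ _ (fun i => pow_zero _),
      Finsupp.prod_fintype _ _ (fun i => pow_zero _)]
    unfold mono
    simp only [map_mul, map_prod, map_pow]
    ring
  rw [h, E_smul, E_mono]
  by_cases hde : d = e
  · subst hde
    rw [if_pos rfl, if_pos rfl]
    rfl
  · rw [if_neg hde, if_neg, mul_zero]
    intro h'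
    apply hde
    ext i
    exact (congrFun h' i).symm

theorem ip_monomial_left (d : ι →₀ ℕ) (u : MvPolynomial ι ℂ) :
    ip (monomial d 1) u = coeff d u * w d := by
  classical
  induction u using MvPolynomial.induction_on' with
  | monomial e b =>
    rw [ip_monomial, coeff_monomial]
    by_cases h : d = e
    · rw [if_pos h, if_pos h.symm, map_one, one_mul]
    · rw [if_neg h, if_neg (fun h' => h h'.symm), zero_mul]
  | add p q hp hq => rw [ip_add_right, coeff_add, add_mul, hp, hq]

theorem ip_ext {u v : MvPolynomial ι ℂ} (h : ∀ p, ip p u = ip p v) : u = v := by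
  ext d
  have h1 := h (monomial d 1)
  rw [ip_monomial_left, ip_monomial_left] at h1
  exact mul_right_cancel₀ (w_ne d) h1

theorem ip_symm (p q : MvPolynomial ι ℂ) : conj (ip p q) = ip q p := by
  unfold ip E
  rw [← integral_conj]
  congr 1
  ext z
  simp only [map_mul, Complex.conj_conj, Complex.conj_ofReal]
  ring

/-- the norm -/
noncomputable def nr (p : MvPolynomial ι ℂ) : ℝ := (ip p p).re

theorem nr_cast (p : MvPolynomial ι ℂ) : ((nr p : ℝ) : ℂ) = ip p p := by
  unfold nr
  have h := ip_symm p p
  exact Complex.conj_eq_iff_re.1 h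

theorem nr_nonneg (p : MvPolynomial ι ℂ) : 0 ≤ nr p := by
  have h : ip p p = ((∫ z : ι → ℂ, Complex.normSq (eval z p) * gr z : ℝ) : ℂ) := by
    unfold ip E
    rw [← integral_complex_ofReal]
    congr 1
    ext z
    rw [Complex.ofReal_mul, ← Complex.mul_conj]
    ring
  unfold nr
  rw [h, Complex.ofReal_re]
  exact integral_nonneg (fun z => mul_nonneg (Complex.normSq_nonneg _) (gr_nonneg z))

/-- Cauchy-Schwarz for families -/
theorem ip_cs {A : Type*} (s : Finset A) (u v : A → MvPolynomial ι ℂ) (c : ℝ)
    (hc : ∑ a ∈ s, ip (u a) (v a) = c) :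
    c ^ 2 ≤ (∑ a ∈ s, nr (u a)) * ∑ a ∈ s, nr (v a) := by
  have hc' : ∑ a ∈ s, ip (v a) (u a) = c := by
    have := congrArg conj hc
    rw [map_sum, Complex.conj_ofReal] at this
    rw [← this]
    exact Finset.sum_congr rfl (fun a _ => (ip_symm _ _).symm)
  have h := discrim_le_zero (a := ∑ a ∈ s, nr (u a)) (b := 2 * c) (c := ∑ a ∈ s, nr (v a)) (by
    intro t
    have e : (∑ a ∈ s, nr (u a)) * (t * t) + 2 * c * t + ∑ a ∈ s, nr (v a) =
        ∑ a ∈ s, nr (C (t : ℂ) * u a + v a) := by
      have : (((∑ a ∈ s, nr (u a)) * (t * t) + 2 * c * t + ∑ a ∈ s, nr (v a) : ℝ) : ℂ) =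
          ((∑ a ∈ s, nr (C (t : ℂ) * u a + v a) : ℝ) : ℂ) := by
        push_cast
        simp_rw [nr_cast]
        simp_rw [ip_add_left, ip_add_right, ip_smul_left, ip_smul_right, Complex.conj_ofReal]
        rw [Finset.sum_add_distrib, Finset.sum_add_distrib, Finset.sum_add_distrib,
          ← Finset.mul_sum, ← Finset.mul_sum, ← Finset.mul_sum, ← Finset.mul_sum, hc, hc']
        ring
      exact_mod_cast this
    rw [e]
    exact Finset.sum_nonneg (fun a _ => nr_nonneg _))
  unfold discrim at h
  nlinarith

/-- adjointness of `X a` and the derivative -/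
theorem ip_X (a : ι) (p q : MvPolynomial ι ℂ) : ip (X a * p) q = ip p (pderiv a q) := by
  classical
  induction p using MvPolynomial.induction_on' with
  | add p1 p2 h1 h2 => rw [mul_add, ip_add_left, ip_add_left, h1, h2]
  | monomial d c =>
    induction q using MvPolynomial.induction_on' with
    | add q1 q2 h1 h2 => rw [ip_add_right, map_add, ip_add_right, h1, h2]
    | monomial e b =>
      rw [pderiv_monomial, mul_comm, MvPolynomial.X, monomial_mul, mul_one, ip_monomial,
        ip_monomial]
      by_cases h : d + Finsupp.single a 1 = e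
      · subst h
        have h2 : d + Finsupp.single a 1 - Finsupp.single a 1 = d := by
          ext i; simp
        rw [if_pos rfl, if_pos h2.symm]
        have h3 : w (d + Finsupp.single a 1) = w d * (d a + 1) := by
          unfold w
          rw [← Finset.mul_prod_erase _ _ (Finset.mem_univ a),
            ← Finset.mul_prod_erase Finset.univ (fun i => ((d i).factorial : ℂ))
              (Finset.mem_univ a)]
          have h4 : ∏ x ∈ Finset.univ.erase a,
              (((d + Finsupp.single a 1 : ι →₀ ℕ) x).factorial : ℂ) =
              ∏ x ∈ Finset.univ.erase a, ((d x).factorial : ℂ) := by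
            refine Finset.prod_congr rfl (fun x hx => ?_)
            have : x ≠ a := Finset.ne_of_mem_erase hx
            simp [Finsupp.single_apply, this.symm]
          rw [h4]
          simp [Nat.factorial_succ]
          ring
        rw [h3]
        simp
        ring
      · rw [if_neg h]
        split_ifs with h2
        · have h3 : e a = 0 := by
            by_contra h3
            apply h
            rw [h2]
            ext i
            by_cases hi : i = a
            · subst hi
              simp
              omega
            · simp [Finsupp.single_apply, Ne.symm hi]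
          rw [h3]
          simp
        · rfl

end Pool.Agent.helper16.Fock
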