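import Pool.Agent.helper16.LSZ.F1

set_option linter.all false
set_option autoImplicit false

/-!
# Adjoint of multiplication and the Wick expansion (MP_2dd521_co)
-/

namespace Pool.Agent.helper16.Fock

open MvPolynomial Finset MeasureTheory
open scoped ComplexConjugate
open Pool.Agent.helper80.LSZ

variable {ι : Type*} [Fintype ι] [DecidableEq ι]

theorem adj_exists (q : MvPolynomial ι ℂ) :
    ∀ f : MvPolynomial ι ℂ, ∃ g, ∀ p, ip (q * p) f = ip p g := by
  induction q using MvPolynomial.induction_on with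
  | C a =>
    intro f
    refine ⟨C (conj a) * f, fun p => ?_⟩
    rw [ip_smul_left, ip_smul_right]
  | add q1 q2 h1 h2 =>
    intro f
    obtain ⟨g1, h1⟩ := h1 f
    obtain ⟨g2, h2⟩ := h2 f
    refine ⟨g1 + g2, fun p => ?_⟩
    rw [add_mul, ip_add_left, ip_add_right, h1, h2]
  | mul_X q i h =>
    intro f
    obtain ⟨g, hg⟩ := h f
    refine ⟨pderiv i g, fun p => ?_⟩
    rw [mul_assoc, hg, ip_X]

/-- adjoint of the multiplication by `q` -/
noncomputable def T (q f : MvPolynomial ι ℂ) : MvPolynomial ι ℂ := (adj_exists q f).choose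

theorem T_spec (q f p : MvPolynomial ι ℂ) : ip (q * p) f = ip p (T q f) :=
  (adj_exists q f).choose_spec p

theorem T_mul (q1 q2 f : MvPolynomial ι ℂ) : T (q1 * q2) f = T q1 (T q2 f) := by
  apply ip_ext
  intro p
  rw [← T_spec, ← T_spec, ← T_spec]
  congr 1
  ring

theorem T_X (a : ι) (f : MvPolynomial ι ℂ) : T (X a) f = pderiv a f := by
  apply ip_ext
  intro p
  rw [← T_spec, ip_X]

theorem T_C (c : ℂ) (f : MvPolynomial ι ℂ) : T (C c) f = C (conj c) * f := by
  apply ip_ext
  intro p
  rw [← T_spec, ip_smul_left, ip_smul_right]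

theorem T_add_left (q1 q2 f : MvPolynomial ι ℂ) : T (q1 + q2) f = T q1 f + T q2 f := by
  apply ip_ext
  intro p
  rw [← T_spec, add_mul, ip_add_left, ip_add_right, T_spec, T_spec]

theorem T_add_right (q f g : MvPolynomial ι ℂ) : T q (f + g) = T q f + T q g := by
  apply ip_ext
  intro p
  rw [← T_spec, ip_add_right, ip_add_right, T_spec, T_spec]

theorem T_zero_left (f : MvPolynomial ι ℂ) : T 0 f = 0 := by
  apply ip_ext
  intro p
  rw [← T_spec, zero_mul, ip_zero_left, ip_zero_right]

theorem T_zero_right (q : MvPolynomial ι ℂ) : T q 0 = 0 := by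
  apply ip_ext
  intro p
  rw [← T_spec, ip_zero_right, ip_zero_right]

theorem T_sum_left {A : Type*} (s : Finset A) (q : A → MvPolynomial ι ℂ)
    (f : MvPolynomial ι ℂ) : T (∑ a ∈ s, q a) f = ∑ a ∈ s, T (q a) f := by
  classical
  induction s using Finset.induction_on with
  | empty => simp [T_zero_left]
  | insert a s ha ih => rw [Finset.sum_insert ha, Finset.sum_insert ha, T_add_left, ih]

/-- commutation with the multiplication by a variable -/
theorem T_comm (q : MvPolynomial ι ℂ) (a : ι) (f : MvPolynomial ι ℂ) :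
    T q (X a * f) = X a * T q f + T (pderiv a q) f := by
  have hX : ∀ u v : MvPolynomial ι ℂ, ip u (X a * v) = ip (pderiv a u) v := by
    intro u v
    rw [← ip_symm, ip_X, ip_symm]
  apply ip_ext
  intro p
  rw [← T_spec, hX, Derivation.leibniz, ip_add_left, ip_add_right, hX, smul_eq_mul, smul_eq_mul,
    T_spec, mul_comm p, T_spec]

/-- the terms of the Wick expansion -/
noncomputable def N : ℕ → MvPolynomial ι ℂ → MvPolynomial ι ℂ → MvPolynomial ι ℂ →
    MvPolynomial ι ℂ → ℂ
  | 0, p, q, f, g => ip (T q f) (T p g)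
  | s + 1, p, q, f, g => ∑ a, N s (pderiv a p) (pderiv a q) f g

theorem N_zero (p q f g : MvPolynomial ι ℂ) : N 0 p q f g = ip (T q f) (T p g) := rfl

theorem N_succ (s : ℕ) (p q f g : MvPolynomial ι ℂ) :
    N (s + 1) p q f g = ∑ a, N s (pderiv a p) (pderiv a q) f g := rfl

theorem N_add (s : ℕ) : ∀ p1 p2 q f g : MvPolynomial ι ℂ,
    N s (p1 + p2) q f g = N s p1 q f g + N s p2 q f g := by
  induction s with
  | zero =>
    intro p1 p2 q f g
    rw [N_zero, N_zero, N_zero, T_add_left, ip_add_right]
  | succ s ih =>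
    intro p1 p2 q f g
    rw [N_succ, N_succ, N_succ, ← Finset.sum_add_distrib]
    refine Finset.sum_congr rfl (fun a _ => ?_)
    rw [map_add, ih]

theorem N_zero_left (s : ℕ) : ∀ q f g : MvPolynomial ι ℂ, N s 0 q f g = 0 := by
  induction s with
  | zero =>
    intro q f g
    rw [N_zero, T_zero_left, ip_zero_right]
  | succ s ih =>
    intro q f g
    rw [N_succ]
    refine Finset.sum_eq_zero (fun a _ => ?_)
    rw [map_zero, ih]

theorem pd_comm (a b : ι) (q : MvPolynomial ι ℂ) :
    pderiv a (pderiv b q) = pderiv b (pderiv a q) := by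
  apply ip_ext
  intro p
  rw [← ip_X, ← ip_X, ← ip_X, ← ip_X]
  congr 1
  ring

theorem N_mul_X (s : ℕ) : ∀ (p q f g : MvPolynomial ι ℂ) (b : ι),
    N s (p * X b) q f g = N s p q f (pderiv b g) +
      s * N (s - 1) p (pderiv b q) f g := by
  induction s with
  | zero =>
    intro p q f g b
    rw [N_zero, N_zero, T_mul, T_X]
    simp
  | succ s ih =>
    intro p q f g b
    rw [N_succ, N_succ]
    have e : ∀ a, N s (pderiv a (p * X b)) (pderiv a q) f g =
        N s (pderiv a p) (pderiv a q) f (pderiv b g) +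
          s * N (s - 1) (pderiv a p) (pderiv a (pderiv b q)) f g +
          if a = b then N s p (pderiv b q) f g else 0 := by
      intro a
      rw [Derivation.leibniz, smul_eq_mul, smul_eq_mul, N_add, mul_comm (X b), ih,
        pd_comm b a q]
      rw [pderiv_X]
      by_cases hab : a = b
      · subst hab
        rw [Pi.single_eq_same, mul_one, if_pos rfl]
        ring
      · rw [Pi.single_eq_of_ne (Ne.symm hab), mul_zero, N_zero_left, if_neg hab]
        ring
    simp_rw [e]
    rw [Finset.sum_add_distrib, Finset.sum_add_distrib, ← Finset.mul_sum]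
    simp only [Finset.sum_ite_eq', Finset.mem_univ, if_true]
    cases s with
    | zero => simp
    | succ s =>
      have e1 : ∑ i, N s (pderiv i p) (pderiv i (pderiv b q)) f g =
        N (s + 1) p (pderiv b q) f g := rfl
      have e2 : ∑ i, N (s + 1) (pderiv i p) (pderiv i q) f (pderiv b g) =
        N (s + 1 + 1) p q f (pderiv b g) := rfl
      rw [Nat.add_sub_cancel, Nat.add_sub_cancel, e1, e2]
      push_cast
      ring

/-- Wick expansion -/
theorem wick_exp (p : MvPolynomial ι ℂ) : ∃ n0 : ℕ, ∀ n ≥ n0, ∀ q f g : MvPolynomial ι ℂ,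
    ip (p * f) (q * g) = ∑ s ∈ Finset.range n, N s p q f g / (s.factorial : ℂ) := by
  induction p using MvPolynomial.induction_on with
  | C a =>
    refine ⟨1, fun n hn q f g => ?_⟩
    obtain ⟨n, rfl⟩ : ∃ k, n = k + 1 := ⟨n - 1, by omega⟩
    rw [Finset.sum_range_succ', Finset.sum_eq_zero]
    · rw [N_zero, T_C, ip_smul_left, ip_smul_right, ← ip_symm, T_spec, ip_symm]
      simp
    · intro s _
      rw [N_succ, Finset.sum_eq_zero, zero_div]
      intro a _
      rw [pderiv_C, N_zero_left]
  | add p1 p2 h1 h2 =>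
    obtain ⟨n1, h1⟩ := h1
    obtain ⟨n2, h2⟩ := h2
    refine ⟨max n1 n2, fun n hn q f g => ?_⟩
    rw [add_mul, ip_add_left, h1 n (le_trans (le_max_left _ _) hn),
      h2 n (le_trans (le_max_right _ _) hn), ← Finset.sum_add_distrib]
    refine Finset.sum_congr rfl (fun s _ => ?_)
    rw [N_add, add_div]
  | mul_X p b h =>
    obtain ⟨n0, h⟩ := h
    refine ⟨n0 + 1, fun n hn q f g => ?_⟩
    obtain ⟨n, rfl⟩ : ∃ k, n = k + 1 := ⟨n - 1, by omega⟩
    have e1 : ip (p * X b * f) (q * g) = ip (p * f) (q * pderiv b g) +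
        ip (p * f) (pderiv b q * g) := by
      rw [show p * X b * f = X b * (p * f) by ring, ip_X, Derivation.leibniz, smul_eq_mul,
        smul_eq_mul, ip_add_right, mul_comm g]
    rw [e1, h (n + 1) (by omega), h n (by omega)]
    simp_rw [N_mul_X, add_div]
    rw [Finset.sum_add_distrib]
    congr 1
    rw [Finset.sum_range_succ']
    simp only [Nat.cast_zero, zero_mul, zero_div, add_zero]
    refine Finset.sum_congr rfl (fun s _ => ?_)
    rw [Nat.add_sub_cancel, Nat.factorial_succ]
    push_cast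
    have h2 : ((s : ℂ) + 1) ≠ 0 := by exact_mod_cast Nat.succ_ne_zero s
    have h3 : ((s.factorial : ℕ) : ℂ) ≠ 0 := by exact_mod_cast Nat.factorial_ne_zero s
    field_simp

end Pool.Agent.helper16.Fock
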