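import Pool.Agent.helper16.LSZ.F2
import Mathlib.RingTheory.MvPolynomial.EulerIdentity

set_option linter.all false
set_option autoImplicit false

/-!
# Homogeneous polynomials: the three facts on the exchange numbers (MP_2dd521_co)
-/

namespace Pool.Agent.helper16.Fock

open MvPolynomial Finset MeasureTheory
open scoped ComplexConjugate
open Pool.Agent.helper80.LSZ

variable {ι : Type*} [Fintype ι] [DecidableEq ι]

theorem hom_zero_eq {p : MvPolynomial ι ℂ} (h : p.IsHomogeneous 0) : ∃ c, p = C c := by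
  rw [← totalDegree_zero_iff_isHomogeneous] at h
  exact ⟨_, totalDegree_eq_zero_iff_eq_C.1 h⟩

theorem pd_hom_zero {p : MvPolynomial ι ℂ} (h : p.IsHomogeneous 0) (a : ι) : pderiv a p = 0 := by
  obtain ⟨c, rfl⟩ := hom_zero_eq h
  exact pderiv_C

theorem N_hom_zero (s : ℕ) : ∀ (m : ℕ) (p q f g : MvPolynomial ι ℂ), p.IsHomogeneous m → m < s →
    N s p q f g = 0 := by
  induction s with
  | zero => intro m p q f g _ h; exact absurd h (by omega)
  | succ s ih =>
    intro m p q f g hp hm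
    rw [N_succ]
    refine Finset.sum_eq_zero (fun a _ => ?_)
    rcases Nat.eq_zero_or_pos m with h0 | h0
    · subst h0
      rw [pd_hom_zero hp, N_zero_left]
    · exact ih (m - 1) _ _ _ _ hp.pderiv (by omega)

/-- Wick expansion for homogeneous polynomials -/
theorem wick_hom {m : ℕ} {p : MvPolynomial ι ℂ} (hp : p.IsHomogeneous m)
    (q f g : MvPolynomial ι ℂ) :
    ip (p * f) (q * g) = ∑ s ∈ Finset.range (m + 1), N s p q f g / (s.factorial : ℂ) := by
  obtain ⟨n0, h⟩ := wick_exp p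
  rw [h (max n0 (m + 1)) (le_max_left _ _) q f g]
  symm
  apply Finset.sum_subset
  · intro s hs
    rw [Finset.mem_range] at hs ⊢
    exact lt_of_lt_of_le hs (le_max_right _ _)
  · intro s _ hs
    rw [Finset.mem_range, not_lt] at hs
    rw [N_hom_zero s m p q f g hp (by omega), zero_div]

theorem ip_monomial_left' (d : ι →₀ ℕ) (c : ℂ) (u : MvPolynomial ι ℂ) :
    ip (monomial d c) u = conj c * (coeff d u * w d) := by
  rw [← ip_monomial_left, ← ip_smul_left, C_mul_monomial, mul_one]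

theorem ip_hom_ne {a b : ℕ} {p q : MvPolynomial ι ℂ} (hp : p.IsHomogeneous a)
    (hq : q.IsHomogeneous b) (hab : a ≠ b) : ip p q = 0 := by
  rw [← p.support_sum_monomial_coeff, ip_sum_left]
  refine Finset.sum_eq_zero (fun d hd => ?_)
  rw [ip_monomial_left']
  have h1 : d.degree = a := by
    by_contra h
    exact (mem_support_iff.1 hd) (hp.coeff_eq_zero h)
  rw [hq.coeff_eq_zero (by rw [h1]; exact hab)]
  ring

theorem T_hom {m n : ℕ} {q f : MvPolynomial ι ℂ} (hq : q.IsHomogeneous m)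
    (hf : f.IsHomogeneous (m + n)) : (T q f).IsHomogeneous n := by
  intro d hd
  have hw : Finsupp.weight 1 d = d.degree := by
    rw [Finsupp.degree_eq_weight_one]; rfl
  rw [hw]
  by_contra h
  apply hd
  have h1 : ip (monomial d 1) (T q f) = 0 := by
    rw [← T_spec]
    exact ip_hom_ne (hq.mul (isHomogeneous_monomial (1 : ℂ) rfl)) hf (by omega)
  rw [ip_monomial_left] at h1
  exact (mul_eq_zero.1 h1).resolve_right (w_ne d)

theorem euler_ip {m : ℕ} {p : MvPolynomial ι ℂ} (hp : p.IsHomogeneous m)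
    (q : MvPolynomial ι ℂ) : ∑ a, ip (pderiv a p) (pderiv a q) = m * ip p q := by
  simp_rw [← ip_X]
  rw [← ip_sum_left, hp.sum_X_mul_pderiv, nsmul_eq_mul]
  have := ip_smul_left (m : ℂ) p q
  rw [Complex.conj_natCast] at this
  rw [← this]
  simp

theorem ip_one : ip (1 : MvPolynomial ι ℂ) 1 = 1 := by
  have h := ip_monomial (0 : ι →₀ ℕ) 0 1 1
  rw [if_pos rfl] at h
  simpa [w] using h

theorem N_top (m : ℕ) : ∀ (p q f g : MvPolynomial ι ℂ), p.IsHomogeneous m → q.IsHomogeneous m →
    N m p q f g = m.factorial * ip p q * ip f g := by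
  induction m with
  | zero =>
    intro p q f g hp hq
    obtain ⟨a, rfl⟩ := hom_zero_eq hp
    obtain ⟨b, rfl⟩ := hom_zero_eq hq
    rw [N_zero, T_C, T_C, ip_smul_left, ip_smul_right]
    have h := ip_smul_left a (1 : MvPolynomial ι ℂ) (C b)
    have h2 := ip_smul_right b (1 : MvPolynomial ι ℂ) 1
    rw [mul_one] at h h2
    rw [h, h2, ip_one, Complex.conj_conj]
    simp
    ring
  | succ m ih =>
    intro p q f g hp hq
    rw [N_succ]
    have e : ∀ a, N m (pderiv a p) (pderiv a q) f g =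
        m.factorial * ip f g * ip (pderiv a p) (pderiv a q) := by
      intro a
      rw [ih _ _ _ _ hp.pderiv hq.pderiv]
      ring
    simp_rw [e]
    rw [← Finset.mul_sum, euler_ip hp, Nat.factorial_succ]
    push_cast
    ring

/-- the norm of `z_a G`, summed over `a` -/
theorem nr_X {n : ℕ} {G : MvPolynomial ι ℂ} (hG : G.IsHomogeneous n) :
    ∑ a, nr (X a * G) = (Fintype.card ι + n) * nr G := by
  have h : ((∑ a, nr (X a * G) : ℝ) : ℂ) = (((Fintype.card ι + n) * nr G : ℝ) : ℂ) := by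
    push_cast
    simp_rw [nr_cast, ip_X, Derivation.leibniz, pderiv_X_self, smul_eq_mul, mul_one,
      ip_add_right]
    rw [Finset.sum_add_distrib, ← ip_sum_right, hG.sum_X_mul_pderiv]
    have := ip_smul_right (n : ℂ) G G
    rw [nsmul_eq_mul]
    simp only [Finset.sum_const, Finset.card_univ, nsmul_eq_mul]
    simp only [map_natCast] at this
    rw [this]
    ring
  exact_mod_cast h

/-- the exchange numbers are real and nonnegative -/
noncomputable def n (s : ℕ) (p f : MvPolynomial ι ℂ) : ℝ := (N s p p f f).re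

theorem N_real (s : ℕ) : ∀ p f : MvPolynomial ι ℂ, ((n s p f : ℝ) : ℂ) = N s p p f f ∧
    0 ≤ n s p f := by
  unfold n
  induction s with
  | zero =>
    intro p f
    rw [N_zero]
    exact ⟨nr_cast _, nr_nonneg _⟩
  | succ s ih =>
    intro p f
    rw [N_succ]
    have e : ∑ a, N s (pderiv a p) (pderiv a p) f f =
        ((∑ a, (N s (pderiv a p) (pderiv a p) f f).re : ℝ) : ℂ) := by
      push_cast
      exact Finset.sum_congr rfl (fun a _ => (ih _ _).1.symm)
    rw [e, Complex.ofReal_re]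
    exact ⟨rfl, Finset.sum_nonneg (fun a _ => (ih _ _).2)⟩

theorem n_zero (p f : MvPolynomial ι ℂ) : n 0 p f = nr (T p f) := rfl

theorem n_one (p f : MvPolynomial ι ℂ) : n 1 p f = ∑ a, nr (T (pderiv a p) f) := by
  have h := (N_real 1 p f).1
  rw [N_succ] at h
  have h2 : ((n 1 p f : ℝ) : ℂ) = ((∑ a, nr (T (pderiv a p) f) : ℝ) : ℂ) := by
    rw [h]
    push_cast
    refine Finset.sum_congr rfl (fun a _ => ?_)
    rw [N_zero, nr_cast]
  exact_mod_cast h2

theorem n_top {m : ℕ} {p : MvPolynomial ι ℂ} (hp : p.IsHomogeneous m) (f : MvPolynomial ι ℂ) :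
    n m p f = m.factorial * nr p * nr f := by
  have h := (N_real m p f).1
  rw [N_top m p p f f hp hp, ← nr_cast, ← nr_cast] at h
  exact_mod_cast h

/-- the norm of `p f` -/
theorem nr_mul {m : ℕ} {p : MvPolynomial ι ℂ} (hp : p.IsHomogeneous m) (f : MvPolynomial ι ℂ) :
    nr (p * f) = ∑ s ∈ Finset.range (m + 1), n s p f / (s.factorial : ℝ) := by
  have h := wick_hom hp p f f
  rw [← nr_cast] at h
  simp_rw [← (N_real _ _ _).1] at h
  exact_mod_cast h

/-- the norm of `(∂_a p) f`, summed over `a` -/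
theorem nr_pd_mul {m : ℕ} {p : MvPolynomial ι ℂ} (hp : p.IsHomogeneous (m + 1))
    (f : MvPolynomial ι ℂ) : ∑ a, nr (pderiv a p * f) =
      ∑ s ∈ Finset.range (m + 1), n (s + 1) p f / (s.factorial : ℝ) := by
  have h : ((∑ a, nr (pderiv a p * f) : ℝ) : ℂ) =
      ((∑ s ∈ Finset.range (m + 1), n (s + 1) p f / (s.factorial : ℝ) : ℝ) : ℂ) := by
    push_cast
    have e : ∀ a, ((nr (pderiv a p * f) : ℝ) : ℂ) =
        ∑ s ∈ Finset.range (m + 1), N s (pderiv a p) (pderiv a p) f f / (s.factorial : ℂ) := by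
      intro a
      rw [nr_cast]
      have := hp.pderiv (i := a)
      exact wick_hom this _ _ _
    simp_rw [e]
    rw [Finset.sum_comm]
    refine Finset.sum_congr rfl (fun s _ => ?_)
    rw [(N_real _ _ _).1, N_succ, Finset.sum_div]
  exact_mod_cast h

/-- (iii) -/
theorem rel {m : ℕ} {p : MvPolynomial ι ℂ} (hp : p.IsHomogeneous m) (k : ℕ) :
    (k + 1) * ∑ a, nr (pderiv a p * p ^ k) = m * nr (p ^ (k + 1)) := by
  have h : (((k + 1) * ((k + 1) * ∑ a, nr (pderiv a p * p ^ k)) : ℝ) : ℂ) =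
      (((k + 1) * (m * nr (p ^ (k + 1))) : ℝ) : ℂ) := by
    push_cast
    have e : ∀ a, ip (pderiv a (p ^ (k + 1))) (pderiv a (p ^ (k + 1))) =
        (k + 1) * ((k + 1) * ((nr (pderiv a p * p ^ k) : ℝ) : ℂ)) := by
      intro a
      have e1 : pderiv a (p ^ (k + 1)) = C ((k : ℂ) + 1) * (pderiv a p * p ^ k) := by
        rw [pderiv_pow, Nat.add_sub_cancel]
        simp
        ring
      rw [e1, ip_smul_left, ip_smul_right, nr_cast]
      simp
    have h1 := euler_ip (hp.pow (k + 1)) (p ^ (k + 1))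
    simp_rw [e] at h1
    rw [← Finset.mul_sum, ← Finset.mul_sum, ← nr_cast] at h1
    rw [h1]
    push_cast
    ring
  have h2 : (k + 1 : ℝ) * ((k + 1) * ∑ a, nr (pderiv a p * p ^ k)) =
      (k + 1) * (m * nr (p ^ (k + 1))) := by exact_mod_cast h
  exact mul_left_cancel₀ (by positivity) h2

/-- (i) -/
theorem test_one (p : MvPolynomial ι ℂ) (k : ℕ) :
    nr (p ^ (k + 1)) ^ 2 ≤ nr (p ^ k) * n 0 p (p ^ (k + 1)) := by
  have h := ip_cs (Finset.univ : Finset Unit) (fun _ => p ^ k) (fun _ => T p (p ^ (k + 1)))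
    (nr (p ^ (k + 1))) (by
      simp only [Finset.univ_unique, Finset.sum_singleton]
      rw [← T_spec, nr_cast, pow_succ']
      )
  simpa [n_zero] using h

/-- (ii) -/
theorem test_two {m : ℕ} {p : MvPolynomial ι ℂ} (hp : p.IsHomogeneous m) {f : MvPolynomial ι ℂ}
    {l : ℕ} (hf : f.IsHomogeneous (m + l)) :
    (m : ℝ) ^ 2 * n 0 p f ≤ (Fintype.card ι + l) * n 1 p f := by
  have hG := T_hom hp hf
  have h := ip_cs (Finset.univ : Finset ι) (fun a => X a * T p f) (fun a => T (pderiv a p) f)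
    (m * nr (T p f)) (by
      have e : ∀ a, ip (X a * T p f) (T (pderiv a p) f) = ip (T p f) (T (X a * pderiv a p) f) := by
        intro a
        rw [ip_X, ← T_X, ← T_mul]
      simp_rw [e]
      rw [← ip_sum_right, ← T_sum_left, hp.sum_X_mul_pderiv]
      have e2 : T (m • p) f = C (m : ℂ) * T p f := by
        rw [nsmul_eq_mul, show ((m : MvPolynomial ι ℂ)) = C (m : ℂ) by simp, T_mul, T_C]
        simp
      rw [e2, ip_smul_right, ← nr_cast]
      push_cast
      ring)
  rw [nr_X hG, ← n_one, ← n_zero] at h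
  have h0 := (N_real 0 p f).2
  have h1 := (N_real 1 p f).2
  rcases h0.lt_or_eq with hp0 | hp0
  · have h2 : n 0 p f * ((m : ℝ) ^ 2 * n 0 p f) ≤ n 0 p f * ((Fintype.card ι + l) * n 1 p f) := by
      nlinarith
    exact le_of_mul_le_mul_left h2 hp0
  · rw [← hp0, mul_zero]
    positivity

end Pool.Agent.helper16.Fock
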