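import Pool.Agent.helper16.LSZ.F3

set_option linter.all false
set_option autoImplicit false

/-!
# Pate's inequality and log-convexity for `3 × 3` matrices (MP_2dd521_co)
-/

namespace Pool.Agent.helper16.Fock

open MvPolynomial Finset MeasureTheory
open scoped ComplexConjugate ComplexOrder
open Pool.Agent.helper80.LSZ

section

variable {ι : Type*} [Fintype ι] [DecidableEq ι]

/-- the product of linear forms as a polynomial -/
noncomputable def pol {m : ℕ} (L : Fin m → ι → ℂ) : MvPolynomial ι ℂ :=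
  ∏ s, ∑ i, C (L s i) * X i

theorem eval_pol {m : ℕ} (L : Fin m → ι → ℂ) (z : ι → ℂ) : eval z (pol L) = pf L z := by
  unfold pol pf
  simp

theorem pol_hom {m : ℕ} (L : Fin m → ι → ℂ) : (pol L).IsHomogeneous m := by
  have h := IsHomogeneous.prod (Finset.univ : Finset (Fin m)) (fun s => ∑ i, C (L s i) * X i)
    (fun _ => 1) (by
      intro s _
      apply IsHomogeneous.sum
      intro i _
      have := (isHomogeneous_C ι (L s i)).mul (isHomogeneous_X ℂ i)
      simpa using this)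
  simpa [pol] using h

/-- the norms are the permanents -/
theorem nr_pol {m : ℕ} (L : Fin m → ι → ℂ) (k : ℕ) : nr (pol L ^ k) = W L k := by
  have h : ((nr (pol L ^ k) : ℝ) : ℂ) = ((W L k : ℝ) : ℂ) := by
    rw [nr_cast]
    unfold ip E W RR
    rw [← integral_complex_ofReal]
    congr 1
    ext z
    show conj (eval z (pol L ^ k)) * eval z (pol L ^ k) * ((gr z : ℝ) : ℂ) = _
    rw [map_pow (eval z), eval_pol, map_pow, pow_zero, mul_one, Complex.ofReal_mul,
      Complex.ofReal_pow, xr_cast]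
    ring
  exact_mod_cast h

end

/-- the basic inequality for cubics in three variables -/
theorem cubic {ι : Type*} [Fintype ι] [DecidableEq ι] (hι : Fintype.card ι = 3)
    {P : MvPolynomial ι ℂ} (hP : P.IsHomogeneous 3) (k : ℕ) :
    ∃ y : ℝ, nr (P ^ (k + 1)) ^ 2 ≤ nr (P ^ k) * y ∧
      (k + 2) * ((2 * (k + 1) + 3) * y) ≤ (k + 1) * ((2 * k + 1) * nr (P ^ (k + 2)) +
        (k + 2) * (nr P * nr (P ^ (k + 1)))) := by
  refine ⟨n 0 P (P ^ (k + 1)), test_one P k, ?_⟩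
  have hf : (P ^ (k + 1)).IsHomogeneous (3 + 3 * k) := by
    have := hP.pow (k + 1)
    rwa [show 3 * (k + 1) = 3 + 3 * k by ring] at this
  have h2 := test_two hP hf
  rw [hι] at h2
  have h3 := n_top hP (P ^ (k + 1))
  have h4 := nr_mul hP (P ^ (k + 1))
  rw [← pow_succ'] at h4
  have h5 := nr_pd_mul (m := 2) hP (P ^ (k + 1))
  have h6 := rel hP (k + 1)
  rw [h5] at h6
  simp only [Finset.sum_range_succ, Finset.sum_range_zero, Nat.factorial, Nat.cast_one,
    Nat.cast_ofNat, zero_add] at h4 h6 h3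
  push_cast at h2 h3 h4 h6
  have e : k + 1 + 1 = k + 2 := rfl
  rw [e] at h4 h6
  set y0 := n 0 P (P ^ (k + 1))
  set y1 := n 1 P (P ^ (k + 1))
  set y2 := n 2 P (P ^ (k + 1))
  set y3 := n 3 P (P ^ (k + 1))
  have hk : (0 : ℝ) ≤ k := Nat.cast_nonneg k
  norm_num at h3 h4 h6
  have h7 : y2 = 2 * (nr (P ^ (k + 2)) - y0 - y1 - nr P * nr (P ^ (k + 1))) := by
    rw [h4, h3]; ring
  have h8 : ((k : ℝ) + 2) * (y1 + y2 + 3 * (nr P * nr (P ^ (k + 1)))) = 3 * nr (P ^ (k + 2)) := by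
    have : ((k : ℝ) + 2) * (y1 + y2 + 3 * (nr P * nr (P ^ (k + 1)))) =
      ((k : ℝ) + 1 + 1) * (y1 + y2 + y3 / 2) := by rw [h3]; ring
    rw [this]
    exact h6
  rw [h7] at h8
  have h9 : 3 * y0 ≤ (k + 1) * y1 := by linarith
  nlinarith [mul_le_mul_of_nonneg_left h9 (by positivity : (0 : ℝ) ≤ k + 2)]

/-- growth and log-convexity -/
theorem growth {ι : Type*} [Fintype ι] [DecidableEq ι] (hι : Fintype.card ι = 3)
    {P : MvPolynomial ι ℂ} (hP : P.IsHomogeneous 3) (hpos : ∀ k, 0 < nr (P ^ k))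
    (h0 : nr (P ^ 0) = 1) (k : ℕ) :
    ((k : ℝ) + 1) ^ 3 * (nr P * nr (P ^ k)) ≤ nr (P ^ (k + 1)) ∧
      ((k : ℝ) + 2) ^ 3 * nr (P ^ (k + 1)) ^ 2 ≤
        ((k : ℝ) + 1) ^ 3 * (nr (P ^ k) * nr (P ^ (k + 2))) := by
  have step : ∀ k : ℕ, ((k : ℝ) + 1) ^ 3 * (nr P * nr (P ^ k)) ≤ nr (P ^ (k + 1)) →
      ((k : ℝ) + 2) ^ 3 * nr (P ^ (k + 1)) ^ 2 ≤
        ((k : ℝ) + 1) ^ 3 * (nr (P ^ k) * nr (P ^ (k + 2))) := by
    intro k hk
    obtain ⟨y, h1, h2⟩ := cubic hι hP k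
    have p0 := hpos k
    have p1 := hpos (k + 1)
    have p2 := hpos (k + 2)
    have pP : 0 < nr P := by have := hpos 1; rwa [pow_one] at this
    have hk0 : (0 : ℝ) ≤ k := Nat.cast_nonneg k
    set w0 := nr (P ^ k)
    set w1 := nr (P ^ (k + 1))
    set w2 := nr (P ^ (k + 2))
    -- multiply by w0
    have h3 : ((k : ℝ) + 2) * ((2 * (k + 1) + 3) * w1 ^ 2) ≤
        (k + 1) * ((2 * k + 1) * (w0 * w2)) + (k + 1) * (k + 2) * (nr P * w0 * w1) := by
      have h4 := mul_le_mul_of_nonneg_left h2 p0.le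
      have h5 := mul_le_mul_of_nonneg_left h1
        (by positivity : (0 : ℝ) ≤ (k + 2) * (2 * (k + 1) + 3))
      linarith
    have h6 : (k + 1) ^ 3 * (nr P * w0 * w1) ≤ w1 ^ 2 := by
      have := mul_le_mul_of_nonneg_right hk p1.le
      linarith
    -- multiply h3 by (k+1)^2
    have h7 := mul_le_mul_of_nonneg_left h3 (by positivity : (0 : ℝ) ≤ ((k : ℝ) + 1) ^ 2)
    have h8 := mul_le_mul_of_nonneg_left h6 (by positivity : (0 : ℝ) ≤ (k : ℝ) + 2)
    have h9 : (2 * (k : ℝ) + 1) * (((k : ℝ) + 2) ^ 3 * w1 ^ 2) ≤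
        (2 * k + 1) * (((k : ℝ) + 1) ^ 3 * (w0 * w2)) := by
      have e1 : (2 * (k : ℝ) + 1) * (((k : ℝ) + 2) ^ 3 * w1 ^ 2) =
          ((k : ℝ) + 1) ^ 2 * (((k : ℝ) + 2) * ((2 * (k + 1) + 3) * w1 ^ 2)) -
            ((k : ℝ) + 2) * w1 ^ 2 := by ring
      rw [e1]
      linarith
    exact le_of_mul_le_mul_left h9 (by positivity)
  have main : ∀ k : ℕ, ((k : ℝ) + 1) ^ 3 * (nr P * nr (P ^ k)) ≤ nr (P ^ (k + 1)) := by
    intro k
    induction k with
    | zero => rw [h0]; simp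
    | succ k ih =>
      have h1 := step k ih
      have p0 := hpos k
      have p1 := hpos (k + 1)
      have h2 := mul_le_mul_of_nonneg_right ih p1.le
      push_cast
      have h3 : nr (P ^ k) * (((k : ℝ) + 1) ^ 3 * (((k : ℝ) + 1 + 1) ^ 3 *
          (nr P * nr (P ^ (k + 1))))) ≤ nr (P ^ k) * (((k : ℝ) + 1) ^ 3 * nr (P ^ (k + 1 + 1))) := by
        have h4 := mul_le_mul_of_nonneg_left h2 (by positivity : (0 : ℝ) ≤ ((k : ℝ) + 2) ^ 3)
        have e : k + 1 + 1 = k + 2 := rfl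
        rw [e]
        have e2 : (k : ℝ) + 1 + 1 = k + 2 := by ring
        rw [e2]
        nlinarith
      have h5 := le_of_mul_le_mul_left h3 p0
      exact le_of_mul_le_mul_left h5 (by positivity)
  exact ⟨main k, step k (main k)⟩

end Pool.Agent.helper16.Fock
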