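import Pool.Agent.helper16.LSZ.F4

set_option linter.all false
set_option autoImplicit false

/-!
# Pate's inequality for `3 × 3` matrices (MP_2dd521_co): the permanents
-/

namespace Pool.Agent.helper16.Fock

open MvPolynomial Finset MeasureTheory
open scoped ComplexConjugate ComplexOrder
open Pool.Agent.helper80.LSZ

theorem nr_eq_zero {ι : Type*} [Fintype ι] [DecidableEq ι] {p : MvPolynomial ι ℂ} (h : nr p = 0) :
    p = 0 := by
  refine ip_ext (fun q => ?_)
  rw [ip_zero_right]
  -- test with a multiple of q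
  have key : ∀ c : ℂ, (conj c * ip q p).im = 0 → conj c * ip q p = 0 := by
    intro c hc
    have h1 := ip_cs ({()} : Finset Unit) (fun _ => C c * q) (fun _ => p)
      ((conj c * ip q p).re) (by
        rw [Finset.sum_singleton, ip_smul_left]
        apply Complex.ext
        · simp
        · rw [hc]; simp)
    rw [Finset.sum_singleton, Finset.sum_singleton, h, mul_zero] at h1
    have h2 : (conj c * ip q p).re = 0 := by
      have := sq_nonneg ((conj c * ip q p).re)
      exact pow_eq_zero_iff (two_ne_zero) |>.1 (le_antisymm h1 this)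
    exact Complex.ext h2 hc
  have h3 := key (ip q p) (by
    rw [← Complex.normSq_eq_conj_mul_self]
    simp)
  rw [← Complex.normSq_eq_conj_mul_self] at h3
  have h4 : Complex.normSq (ip q p) = 0 := by exact_mod_cast h3
  exact Complex.normSq_eq_zero.1 h4

theorem W_three (L : Fin 3 → Fin 3 → ℂ) (k : ℕ) :
    ((k : ℝ) + 1) ^ 3 * (W L 1 * W L k) ≤ W L (k + 1) ∧
      ((k : ℝ) + 2) ^ 3 * W L (k + 1) ^ 2 ≤ ((k : ℝ) + 1) ^ 3 * (W L k * W L (k + 2)) := by
  rcases eq_or_lt_of_le (W_nonneg L 1) with h1 | h1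
  · have h2 : nr (pol L) = 0 := by
      have := nr_pol L 1
      rw [pow_one] at this
      rw [this, h1]
    have h3 := nr_eq_zero h2
    have h4 : W L (k + 1) = 0 := by
      rw [← nr_pol L (k + 1), h3, pow_succ, mul_zero]
      unfold nr
      rw [ip_zero_right]
      simp
    rw [h4, ← h1]
    refine ⟨by simp, ?_⟩
    have := mul_nonneg (W_nonneg L k) (W_nonneg L (k + 2))
    simp only [ne_eq, OfNat.ofNat_ne_zero, not_false_eq_true, zero_pow, mul_zero]
    positivity
  · have h2 := growth (ι := Fin 3) (by simp) (pol_hom L) (fun k => by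
      rw [nr_pol]; exact (W_pos L h1 k).1) (by rw [nr_pol, W_zero]) k
    rw [nr_pol, nr_pol, nr_pol] at h2
    have h3 : nr (pol L) = W L 1 := by rw [← nr_pol L 1, pow_one]
    rw [h3] at h2
    exact h2

theorem W_pate (L : Fin 3 → Fin 3 → ℂ) (k : ℕ) :
    ((k.factorial : ℝ)) ^ 3 * W L 1 ^ k ≤ W L k := by
  induction k with
  | zero => rw [W_zero]; simp
  | succ k ih =>
    have h := (W_three L k).1
    have h1 := W_nonneg L 1
    calc (((k + 1).factorial : ℕ) : ℝ) ^ 3 * W L 1 ^ (k + 1)
        = ((k : ℝ) + 1) ^ 3 * (W L 1 * ((k.factorial : ℝ) ^ 3 * W L 1 ^ k)) := by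
          rw [Nat.factorial_succ]
          push_cast
          ring
      _ ≤ ((k : ℝ) + 1) ^ 3 * (W L 1 * W L k) := by
          refine mul_le_mul_of_nonneg_left ?_ (by positivity)
          exact mul_le_mul_of_nonneg_left ih h1
      _ ≤ _ := h

theorem pate_three (B : Matrix (Fin 3) (Fin 3) ℂ) (hB : B.PosSemidef) (k : ℕ) :
    ((k.factorial : ℕ) : ℂ) ^ 3 * B.permanent ^ k ≤ (kron1 k B).permanent ∧
      ((k + 1 : ℕ) : ℂ) ^ 3 * (B.permanent * (kron1 k B).permanent) ≤
        (kron1 (k + 1) B).permanent ∧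
      ((k + 2 : ℕ) : ℂ) ^ 3 * (kron1 (k + 1) B).permanent ^ 2 ≤
        ((k + 1 : ℕ) : ℂ) ^ 3 * ((kron1 k B).permanent * (kron1 (k + 2) B).permanent) := by
  obtain ⟨L, hL⟩ := exists_fac B hB 3 (by
    have := B.rank_le_card_width
    simpa using this)
  have h1 := W_pate L k
  have h2 := W_three L k
  rw [← kron1_one B, W_eq L B hL, W_eq L B hL, W_eq L B hL, W_eq L B hL]
  refine ⟨by exact_mod_cast h1, ?_, ?_⟩
  · have := h2.1
    exact_mod_cast this
  · have := h2.2
    exact_mod_cast this

end Pool.Agent.helper16.Fock
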