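import Mathlib
import Pool.Agent.helper16.LSZ.Abs

/-!
Laplace expansions for the matrices of partial permanents; counting labellings.
-/

open Finset BigOperators
open scoped ComplexOrder

namespace Pool.Agent.helper16.LSZ

section lap

variable {J O : Type*} [Fintype J] [DecidableEq J] [Fintype O] [DecidableEq O]

theorem sum_split1 {X S : Type*} [Fintype X] [Fintype S] (P : S → X → Prop)
    [∀ s, Fintype {x // P s x}] (hs : X → S) (h : ∀ s x, P s x ↔ s = hs x) (F : S → X → ℂ) :
    ∑ s, ∑ x : {x // P s x}, F s x.1 = ∑ x, F (hs x) x := by
  classical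
  have h1 : ∀ s, ∑ x : {x // P s x}, F s x.1 = ∑ x, if P s x then F s x else 0 := by
    intro s
    rw [← Finset.sum_filter]
    rw [Finset.sum_subtype (p := fun x => P s x)]
    intro x; simp
  simp_rw [h1]
  rw [Finset.sum_comm]
  refine Finset.sum_congr rfl fun x _ => ?_
  simp_rw [h]
  rw [Finset.sum_ite_eq']
  simp

omit [DecidableEq J] [Fintype O] in
theorem pp_fib (B : J → J → ℂ) (s r : J → O) (o : O) :
    pp B (fun a => s a = o) (fun b => r b = o) = GG B (fib s o) (fib r o) := by
  unfold GG
  congr 1 <;> ext a <;> simp [fib]

omit [Fintype O] [DecidableEq J] in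
theorem card_fib_eq (σ : J ≃ J) (s : J → O) (o : O) :
    (fib (fun b => s (σ.symm b)) o).card = (fib s o).card := by
  apply Finset.card_bij (fun b _ => σ.symm b)
  · intro a ha; rw [mem_fib] at ha ⊢; exact ha
  · intro a _ b _ h; exact σ.symm.injective h
  · intro b hb; exact ⟨σ b, by rw [mem_fib] at hb ⊢; simpa using hb, by simp⟩

/-- total Laplace expansion -/
theorem laplace_total (B : Matrix J J ℂ) (s : J → O) :
    ∑ r : J → O, ∏ o, GG B (fib s o) (fib r o) = B.permanent := by
  rw [permanent_eq, laplace s (fun a b => B a b)]
  refine Finset.sum_congr rfl fun r _ => Finset.prod_congr rfl fun o _ => ?_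
  rw [pp_fib]

omit [DecidableEq J] in
open Classical in
theorem pp_one (M : J → J → ℂ) (p q : J → Prop) (hM : ∀ a b, p a → M a b = 1)
    (h : (univ.filter p).card = (univ.filter q).card) :
    pp M p q = ((univ.filter p).card.factorial : ℂ) := by
  unfold pp
  have h1 : ∀ e : ({i // p i} ≃ {k // q k}), ∏ i : {i // p i}, M i.1 (e i).1 = 1 := by
    intro e
    apply Finset.prod_eq_one
    intro i _
    exact hM _ _ i.2
  simp_rw [h1]
  rw [Finset.sum_const, nsmul_eq_mul, mul_one, Finset.card_univ]
  rw [Fintype.card_equiv (Fintype.equivOfCardEq (by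
    rw [Fintype.card_subtype, Fintype.card_subtype]; exact h))]
  rw [Fintype.card_subtype]

theorem laplace_compl (B : Matrix J J ℂ) (s : J → O) (k : O) (R : Finset J)
    (hR : (fib s k).card = R.card) :
    ∑ r : J → O, (if fib r k = R then ∏ o ∈ univ.erase k, GG B (fib s o) (fib r o) else 0) =
      VV B (fib s k) R := by
  classical
  set M' : J → J → ℂ := fun a b => if s a = k then 1 else B a b with hM'
  have hfac : ((fib s k).card.factorial : ℂ) ≠ 0 := by exact_mod_cast Nat.factorial_ne_zero _
  apply mul_left_cancel₀ hfac
  -- way 1
  have way1 : ((fib s k).card.factorial : ℂ) * ∑ r : J → O,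
      (if fib r k = R then ∏ o ∈ univ.erase k, GG B (fib s o) (fib r o) else 0) =
      ∑ σ : J ≃ J, (if fib (fun b => s (σ.symm b)) k = R then ∏ a, M' a (σ a) else 0) := by
    rw [← sum_split1 (S := J → O) (fun r (σ : J ≃ J) => ∀ a, r (σ a) = s a)
      (fun σ b => s (σ.symm b)) ?_ (fun r σ => if fib r k = R then ∏ a, M' a (σ a) else 0)]
    · rw [Finset.mul_sum]
      refine Finset.sum_congr rfl fun r _ => ?_
      split_ifs with h
      · rw [sum_fiber s r M', ← Finset.mul_prod_erase univ _ (mem_univ k)]
        congr 1
        · rw [pp_one M' _ _ (fun a b ha => by simp [hM', ha])]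
          · unfold fib
            congr!
          · have h1 : (fib s k).card = (fib r k).card := by rw [hR, h]
            unfold fib at h1
            convert h1
        · refine Finset.prod_congr rfl fun o ho => ?_
          rw [← pp_fib]
          unfold pp
          refine Finset.sum_congr rfl fun e _ => Finset.prod_congr rfl fun a _ => ?_
          have h2 : s a.1 ≠ k := by rw [a.2]; exact Finset.ne_of_mem_erase ho
          simp [hM', h2]
      · simp
    · intro r σ
      constructor
      · intro h; funext b; rw [← h]; simp
      · rintro rfl a; simp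
  have way2 : ∑ σ : J ≃ J, (if fib (fun b => s (σ.symm b)) k = R then ∏ a, M' a (σ a) else 0) =
      ((fib s k).card.factorial : ℂ) * VV B (fib s k) R := by
    have h1 : ∀ σ : J ≃ J, fib (fun b => s (σ.symm b)) k = R ↔
        ∀ a, decide (σ a ∈ R) = decide (s a = k) := by
      intro σ
      constructor
      · intro h a
        rw [decide_eq_decide, ← h, mem_fib]
        simp
      · intro h
        ext b
        rw [mem_fib]
        have := h (σ.symm b)
        simp only [Equiv.apply_symm_apply, decide_eq_decide] at this
        exact this.symm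
    simp_rw [h1]
    rw [← Finset.sum_filter]
    have h2 := sum_fiber (fun a => decide (s a = k)) (fun b => decide (b ∈ R)) M'
    rw [Fintype.prod_bool] at h2
    rw [Finset.sum_subtype (p := fun σ : J ≃ J => ∀ a, decide (σ a ∈ R) = decide (s a = k))
      _ (by intro x; simp)]
    rw [h2]
    congr 1
    · rw [pp_one M' _ _ (fun a b ha => by simp only [decide_eq_true_eq] at ha; simp [hM', ha])]
      · congr! 2
        unfold fib
        congr! 1
        ext a; simp
      · have e1 : (univ.filter fun i => decide (s i = k) = true).card = (fib s k).card := by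
          congr 1; ext a; simp [fib]
        have e2 : (univ.filter fun i => decide (i ∈ R) = true).card = R.card := by
          congr 1; ext a; simp
        have h3 : (univ.filter fun i => decide (s i = k) = true).card =
          (univ.filter fun i => decide (i ∈ R) = true).card := by rw [e1, e2, hR]
        convert h3
    · unfold VV
      have h4 : pp M' (fun i => decide (s i = k) = false) (fun j => decide (j ∈ R) = false) =
          pp B (fun i => decide (s i = k) = false) (fun j => decide (j ∈ R) = false) := by
        unfold pp
        refine Finset.sum_congr rfl fun e _ => Finset.prod_congr rfl fun a _ => ?_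
        have h2 : s a.1 ≠ k := by
          have := a.2
          simpa using this
        simp [hM', h2]
      rw [h4]
      congr 1
      · ext a; simp [fib]
      · ext a; simp
  rw [way1, way2]

omit [Fintype O] in
/-- the number of labellings with given fibre sizes and given k-th fibre depends only on the size -/
theorem count_const (c : O → ℕ) (k : O) (S S' : Finset J) (h : S.card = S'.card)
    [Fintype {s : J → O // ∀ o, (fib s o).card = c o}] :
    (univ.filter fun s : {s : J → O // ∀ o, (fib s o).card = c o} => fib s.1 k = S).card =
    (univ.filter fun s : {s : J → O // ∀ o, (fib s o).card = c o} => fib s.1 k = S').card := by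
  classical
  -- a permutation mapping S to S'
  have e0 : {x // x ∈ S} ≃ {x // x ∈ S'} := Fintype.equivOfCardEq (by simpa using h)
  let π : Equiv.Perm J := e0.extendSubtype
  have hπ1 : ∀ x, x ∈ S → π x ∈ S' := fun x hx => e0.extendSubtype_mem x hx
  have hπ2 : ∀ x, x ∉ S → π x ∉ S' := fun x hx => e0.extendSubtype_not_mem x hx
  have hπ : ∀ x, π x ∈ S' ↔ x ∈ S := fun x => ⟨fun hx => by
    by_contra hc; exact hπ2 x hc hx, hπ1 x⟩
  apply Finset.card_bij (fun s _ => (⟨fun b => s.1 (π.symm b), fun o => by
    rw [card_fib_eq]; exact s.2 o⟩ : {s : J → O // ∀ o, (fib s o).card = c o}))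
  · intro s hs
    simp only [mem_filter, mem_univ, true_and] at hs ⊢
    ext b
    rw [mem_fib]
    have : s.1 (π.symm b) = k ↔ π.symm b ∈ S := by rw [← hs, mem_fib]
    rw [this, ← hπ, Equiv.apply_symm_apply]
  · intro s _ s' _ hss
    apply Subtype.ext
    funext a
    have := congrArg (fun t : {s : J → O // ∀ o, (fib s o).card = c o} => t.1 (π a)) hss
    simpa using this
  · intro s hs
    refine ⟨⟨fun b => s.1 (π b), fun o => ?_⟩, ?_, ?_⟩
    · have := card_fib_eq π.symm s.1 o
      simp only [Equiv.symm_symm] at this
      rw [this]; exact s.2 o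
    · simp only [mem_filter, mem_univ, true_and] at hs ⊢
      ext b
      rw [mem_fib, ← hπ, ← hs, mem_fib]
    · apply Subtype.ext
      funext a
      simp

end lap

end Pool.Agent.helper16.LSZ
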