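import Mathlib
import Pool.Agent.helper16.LSZ.Lap

/-!
The inequality for one contingency pattern of a star.
-/

open Finset BigOperators
open scoped ComplexOrder

namespace Pool.Agent.helper16.LSZ

section starT

variable {K J : Type*} [Fintype K] [DecidableEq K] [Fintype J] [DecidableEq J]

theorem prod_erase_some (f : Option K → ℂ) (k : K) :
    ∏ o ∈ univ.erase (some k), f o = f none * ∏ l ∈ univ.erase k, f (some l) := by
  have h1 : ∏ o ∈ univ.erase (some k), f o =
      ∏ o ∈ univ.erase (some k), (if o = some k then 1 else f o) := by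
    refine Finset.prod_congr rfl fun o ho => ?_
    rw [if_neg (Finset.ne_of_mem_erase ho)]
  rw [h1, Finset.prod_erase _ (by simp), Fintype.prod_option]
  have h2 : ∏ l ∈ univ.erase k, f (some l) =
      ∏ l ∈ univ.erase k, (if (some l : Option K) = some k then 1 else f (some l)) := by
    refine Finset.prod_congr rfl fun o ho => ?_
    rw [if_neg (by simpa using Finset.ne_of_mem_erase ho)]
  rw [h2, Finset.prod_erase _ (by simp)]
  simp

theorem perm_nonneg (B : Matrix J J ℂ) (hB : B.PosSemidef) : 0 ≤ B.permanent := by
  have h := (GG_posSemidef B hB).diag_nonneg (i := univ)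
  have h1 : GG B univ univ = B.permanent := by
    rw [permanent_eq, GG_eq']
    refine (Fintype.sum_equiv (Equiv.equivCongr (Equiv.subtypeUnivEquiv (fun x => mem_univ x))
      (Equiv.subtypeUnivEquiv (fun x => mem_univ x))) _ _ fun e => ?_)
    refine Fintype.prod_equiv (Equiv.subtypeUnivEquiv (fun x => mem_univ x)) _ _ fun a => ?_
    simp [Equiv.subtypeUnivEquiv]
  rwa [h1] at h

theorem perm_real (B : Matrix J J ℂ) (hB : B.PosSemidef) :
    B.permanent = ((B.permanent.re : ℝ) : ℂ) ∧ 0 ≤ B.permanent.re := by
  have h := Complex.le_def.mp (perm_nonneg B hB)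
  refine ⟨?_, h.1⟩
  apply Complex.ext
  · simp
  · simpa using h.2.symm

/-- labellings with given fibre sizes -/
abbrev FF (K J : Type*) [Fintype K] [DecidableEq K] [Fintype J] (c : Option K → ℕ) :=
  {s : J → Option K // ∀ o, (fib s o).card = c o}

/-- subsets of given size -/
abbrev XX (K J : Type*) (c : Option K → ℕ) (k : K) := {S : Finset J // S.card = c (some k)}

theorem sum_FF (c : Option K → ℕ) (f : (J → Option K) → ℂ) :
    ∑ s : FF K J c, f s.1 = ∑ s, if (∀ o, (fib s o).card = c o) then f s else 0 := by
  rw [← Finset.sum_filter]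
  rw [Finset.sum_subtype (p := fun s : J → Option K => ∀ o, (fib s o).card = c o)]
  intro x; simp

theorem HH_restrict (B : Matrix J J ℂ) (j : ℕ) (S R : {S : Finset J // S.card = j}) :
    ((GG B).submatrix (Subtype.val : {S : Finset J // S.card = j} → Finset J)
        (Subtype.val : {S : Finset J // S.card = j} → Finset J) *
      ((VV B).transpose).submatrix (Subtype.val : {S : Finset J // S.card = j} → Finset J)
        (Subtype.val : {S : Finset J // S.card = j} → Finset J) *
      (GG B).submatrix (Subtype.val : {S : Finset J // S.card = j} → Finset J)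
        (Subtype.val : {S : Finset J // S.card = j} → Finset J)) S R =
      HH B S.1 R.1 := by
  unfold HH
  simp only [Matrix.mul_apply, Matrix.submatrix_apply]
  have h1 : ∀ f : Finset J → ℂ, (∀ T, T.card ≠ j → f T = 0) →
      ∑ T : {S : Finset J // S.card = j}, f T.1 = ∑ T, f T := by
    intro f hf
    have : ∑ T : {S : Finset J // S.card = j}, f T.1 = ∑ T, if T.card = j then f T else 0 := by
      rw [← Finset.sum_filter]
      rw [Finset.sum_subtype (p := fun T : Finset J => T.card = j)]
      intro x; simp
    rw [this]
    refine Finset.sum_congr rfl fun T _ => ?_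
    split_ifs with h
    · rfl
    · exact (hf T h).symm
  rw [← h1 (fun T => (∑ U, GG B S.1 U * (VV B).transpose U T) * GG B T R.1)]
  · refine Finset.sum_congr rfl fun T _ => ?_
    congr 1
    rw [← h1 (fun U => GG B S.1 U * (VV B).transpose U T.1)]
    intro U hU
    rw [GG_eq_zero _ _ _ (by rw [S.2]; exact Ne.symm hU), zero_mul]
  · intro T hT
    rw [GG_eq_zero _ _ _ (by rw [R.2]; exact hT), mul_zero]

theorem star_T (B : Matrix J J ℂ) (hB : B.PosSemidef) (c : Option K → ℕ) :
    ∃ T : ℝ, ∑ s : FF K J c, ∑ r : FF K J c, (GG B (fib s.1 none) (fib r.1 none) *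
      ∏ k, HH B (fib s.1 (some k)) (fib r.1 (some k))) = (T : ℂ) ∧
      Fintype.card (FF K J c) * B.permanent.re ^ (1 + Fintype.card K) ≤ T := by
  classical
  let φ : ∀ k : K, FF K J c → XX K J c k := fun k s => ⟨fib s.1 (some k), s.2 (some k)⟩
  let μ : K → ℝ := fun k => (Fintype.card (FF K J c) : ℝ) / Fintype.card (XX K J c k)
  -- counting
  have hcount : ∀ k, ∀ S : XX K J c k, ((univ.filter fun s : FF K J c => φ k s = S).card : ℝ) *
      Fintype.card (XX K J c k) = Fintype.card (FF K J c) := by
    intro k S
    have h1 : ∀ S' : XX K J c k, (univ.filter fun s : FF K J c => φ k s = S').card =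
        (univ.filter fun s : FF K J c => φ k s = S).card := by
      intro S'
      have h2 := count_const c (some k) S'.1 S.1 (by rw [S.2, S'.2])
      have h3 : ∀ T : XX K J c k, (univ.filter fun s : FF K J c => φ k s = T) =
          univ.filter fun s : FF K J c => fib s.1 (some k) = T.1 := by
        intro T
        ext s
        simp [φ, Subtype.ext_iff]
      rw [h3, h3]
      exact h2
    have h4 : Fintype.card (FF K J c) = ∑ S' : XX K J c k,
        (univ.filter fun s : FF K J c => φ k s = S').card := by
      rw [← Finset.card_univ]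
      exact Finset.card_eq_sum_card_fiberwise fun s _ => Finset.mem_coe.mpr (mem_univ _)
    rw [Finset.sum_congr rfl fun S' _ => h1 S', Finset.sum_const, smul_eq_mul,
      Finset.card_univ] at h4
    rw [h4]; push_cast; ring
  have hμ : ∀ k, ∀ S : XX K J c k, ((univ.filter fun s : FF K J c => φ k s = S).card : ℝ) = μ k := by
    intro k S
    have hX : (Fintype.card (XX K J c k) : ℝ) ≠ 0 := by
      have : Nonempty (XX K J c k) := ⟨S⟩
      exact_mod_cast Fintype.card_ne_zero
    simp only [μ]
    rw [eq_div_iff hX, hcount k S]
  obtain ⟨hPr, hP⟩ := perm_real B hB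
  have key := abs_ineq (F := FF K J c) (K := K) (X := XX K J c) φ
    ((GG B).submatrix (fun s : FF K J c => fib s.1 none) (fun s => fib s.1 none))
    ((GG_posSemidef B hB).submatrix _)
    (fun k => (GG B).submatrix (Subtype.val : XX K J c k → Finset J) Subtype.val)
    (fun k => ((VV B).transpose).submatrix (Subtype.val : XX K J c k → Finset J) Subtype.val)
    (fun k => (GG_posSemidef B hB).submatrix _)
    (fun k => (VV_posSemidef B hB).transpose.submatrix _)
    B.permanent.re μ ?_ ?_ ?_
  · obtain ⟨T, hT1, hT2⟩ := key
    refine ⟨T, ?_, hT2⟩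
    rw [← hT1]
    refine Finset.sum_congr rfl fun s _ => Finset.sum_congr rfl fun r _ => ?_
    congr 1
    refine Finset.prod_congr rfl fun k _ => ?_
    rw [HH_restrict]
  · intro k S R
    have h1 : ∀ s : FF K J c, φ k s = S → ∑ r : FF K J c, (if φ k r = R then
        (GG B).submatrix (fun s : FF K J c => fib s.1 none) (fun s => fib s.1 none) s r *
          ∏ l ∈ univ.erase k, (GG B).submatrix (Subtype.val : XX K J c l → Finset J) Subtype.val (φ l s) (φ l r)
          else 0) = VV B S.1 R.1 := by
      intro s hs
      have hs' : fib s.1 (some k) = S.1 := congrArg Subtype.val hs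
      have h2 := laplace_compl B s.1 (some k) R.1 (by rw [hs', S.2, R.2])
      rw [hs'] at h2
      rw [← h2]
      have h3 := sum_FF c (fun r : J → Option K => if fib r (some k) = R.1 then
          ∏ o ∈ univ.erase (some k), GG B (fib s.1 o) (fib r o) else 0)
      refine Eq.trans (Eq.trans ?_ h3) ?_
      · refine Finset.sum_congr rfl fun r _ => ?_
        have h4 : φ k r = R ↔ fib r.1 (some k) = R.1 := by simp [φ, Subtype.ext_iff]
        by_cases h5 : fib r.1 (some k) = R.1
        · rw [if_pos (h4.mpr h5), if_pos h5, prod_erase_some]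
          rfl
        · rw [if_neg (fun h => h5 (h4.mp h)), if_neg h5]
      · refine Finset.sum_congr rfl fun r _ => ?_
        split_ifs with h4 h5 h6
        · rfl
        · rfl
        · push Not at h4
          obtain ⟨o, ho⟩ := h4
          symm
          have ho' : o ≠ some k := by
            rintro rfl
            rw [h6, R.2] at ho
            exact ho rfl
          apply Finset.prod_eq_zero (Finset.mem_erase.mpr ⟨ho', mem_univ o⟩)
          apply GG_eq_zero
          rw [s.2 o]
          exact Ne.symm ho
        · rfl
    have h6 : ∀ s : FF K J c, ∑ r : FF K J c, (if φ k s = S then (if φ k r = R then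
        (GG B).submatrix (fun s : FF K J c => fib s.1 none) (fun s => fib s.1 none) s r *
          ∏ l ∈ univ.erase k, (GG B).submatrix (Subtype.val : XX K J c l → Finset J) Subtype.val (φ l s) (φ l r)
          else 0) else 0) = if φ k s = S then VV B S.1 R.1 else 0 := by
      intro s
      split_ifs with h
      · exact h1 s h
      · simp
    rw [Finset.sum_congr rfl fun s _ => h6 s, ← Finset.sum_filter, Finset.sum_const,
      nsmul_eq_mul]
    rw [Matrix.submatrix_apply, Matrix.transpose_apply]
    congr 1
    rw [← hμ k S]
    push_cast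
    rfl
  · have h1 : ∀ s : FF K J c, ∑ r : FF K J c,
        (GG B).submatrix (fun s : FF K J c => fib s.1 none) (fun s => fib s.1 none) s r *
          ∏ l, (GG B).submatrix (Subtype.val : XX K J c l → Finset J) Subtype.val (φ l s) (φ l r) =
        B.permanent := by
      intro s
      rw [← laplace_total B s.1]
      have h3 := sum_FF c (fun r : J → Option K => ∏ o, GG B (fib s.1 o) (fib r o))
      refine Eq.trans (Eq.trans ?_ h3) ?_
      · refine Finset.sum_congr rfl fun r _ => ?_
        rw [Fintype.prod_option]
        rfl
      · refine Finset.sum_congr rfl fun r _ => ?_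
        split_ifs with h4
        · rfl
        · push Not at h4
          obtain ⟨o, ho⟩ := h4
          symm
          apply Finset.prod_eq_zero (mem_univ o)
          apply GG_eq_zero
          rw [s.2 o]
          exact Ne.symm ho
    rw [Finset.sum_congr rfl fun s _ => h1 s, Finset.sum_const, nsmul_eq_mul, Finset.card_univ,
      ← hPr]
  · intro k
    simp only [μ]
    by_cases hX : Fintype.card (XX K J c k) = 0
    · rw [hX]
      simp only [CharP.cast_eq_zero, mul_zero]
      symm
      rw [Nat.cast_eq_zero, Fintype.card_eq_zero_iff]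
      rw [Fintype.card_eq_zero_iff] at hX
      exact ⟨fun s => hX.false (φ k s)⟩
    · rw [div_mul_cancel₀]
      exact_mod_cast hX

end starT

end Pool.Agent.helper16.LSZ
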