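import Mathlib
import Pool.Agent.helper16.LSZ.StarT

/-!
The permanent inequality of Liang, So and Zhang when A is a star matrix.
-/

open Finset BigOperators
open scoped ComplexOrder

namespace Pool.Agent.helper16.LSZ

section permstar

variable {K : Type*} [Fintype K] [DecidableEq K]

/-- permutations supporting the permanent of a star matrix -/
def starPerm : Option K → Equiv.Perm (Option K)
  | none => 1
  | some k => Equiv.swap none (some k)

omit [Fintype K] in
theorem starPerm_injective : Function.Injective (starPerm (K := K)) := by
  intro a b h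
  have h1 := congrArg (fun σ : Equiv.Perm (Option K) => σ none) h
  rcases a with _ | a <;> rcases b with _ | b
  · rfl
  · simp [starPerm] at h1
  · simp [starPerm] at h1
  · simpa [starPerm] using h1

omit [Fintype K] in
theorem not_range_starPerm (σ : Equiv.Perm (Option K)) (h : σ ∉ Set.range (starPerm (K := K))) :
    ∃ k l, k ≠ l ∧ σ (some k) = some l := by
  by_contra hcon
  push Not at hcon
  have hcon' : ∀ k, σ (some k) = none ∨ σ (some k) = some k := by
    intro k
    rcases h1 : σ (some k) with _ | l
    · left; rfl
    · right
      by_contra h2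
      exact hcon k l (fun h3 => h2 (by rw [h3])) h1
  apply h
  by_cases h0 : ∃ k, σ (some k) = none
  · obtain ⟨k, hk⟩ := h0
    refine ⟨some k, ?_⟩
    have hother : ∀ l, l ≠ k → σ (some l) = some l := by
      intro l hl
      rcases hcon' l with h2 | h2
      · exfalso
        apply hl
        have := σ.injective (h2.trans hk.symm)
        simpa using this
      · exact h2
    have hnone : σ none = some k := by
      rcases h3 : σ none with _ | l
      · have := σ.injective (h3.trans hk.symm)
        simp at this
      · by_cases h4 : l = k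
        · rw [h4]
        · have := σ.injective (h3.trans (hother l h4).symm)
          simp at this
    ext1 x
    rcases x with _ | l
    · simp [starPerm, hnone]
    · by_cases h4 : l = k
      · subst h4; simp [starPerm, hk]
      · rw [hother l h4]
        simp only [starPerm]
        rw [Equiv.swap_apply_of_ne_of_ne]
        · simp
        · simpa using h4
  · push Not at h0
    refine ⟨none, ?_⟩
    have hall : ∀ l, σ (some l) = some l := by
      intro l
      rcases hcon' l with h2 | h2
      · exact absurd h2 (h0 l)
      · exact h2
    ext1 x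
    rcases x with _ | l
    · simp only [starPerm, Equiv.Perm.coe_one, id_eq]
      rcases h3 : σ none with _ | l
      · rfl
      · have := σ.injective (h3.trans (hall l).symm)
        simp at this
    · simp [starPerm, hall]

theorem perm_star (A : Matrix (Option K) (Option K) ℂ)
    (hA : ∀ k l, k ≠ l → A (some k) (some l) = 0) :
    A.permanent = A none none * ∏ k, A (some k) (some k) +
      ∑ k, A none (some k) * A (some k) none * ∏ l ∈ univ.erase k, A (some l) (some l) := by
  rw [permanent_eq]
  rw [← Fintype.sum_of_injective (starPerm (K := K)) starPerm_injective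
      (fun x => ∏ i, A i (starPerm x i)) (fun σ => ∏ i, A i (σ i))]
  · rw [Fintype.sum_option]
    congr 1
    · simp only [starPerm, Equiv.Perm.coe_one, id_eq]
      rw [Fintype.prod_option]
    · refine Finset.sum_congr rfl fun k _ => ?_
      rw [Fintype.prod_option, ← Finset.mul_prod_erase univ _ (mem_univ k)]
      simp only [starPerm, Equiv.swap_apply_left, Equiv.swap_apply_right]
      rw [← mul_assoc]
      congr 1
      refine Finset.prod_congr rfl fun l hl => ?_
      rw [Equiv.swap_apply_of_ne_of_ne]
      · simp
      · simpa using Finset.ne_of_mem_erase hl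
  · intro σ hσ
    obtain ⟨k, l, hkl, h⟩ := not_range_starPerm σ hσ
    apply Finset.prod_eq_zero (mem_univ (some k))
    rw [h]
    exact hA k l hkl
  · intro x; rfl

end permstar

section main

variable {K J : Type*} [Fintype K] [DecidableEq K] [Fintype J] [DecidableEq J]

/-- weight of a pattern -/
def wt (m : ℕ) (a0 : ℝ) (b d : K → ℝ) (c : Option K → ℕ) : ℝ :=
  a0 ^ c none * ∏ k, (b k ^ c (some k) * d k ^ (m - c (some k)))

theorem sum_wt (a0 : ℝ) (b d : K → ℝ) :
    ∑ s : J → Option K, wt (Fintype.card J) a0 b d (fun o => (fib s o).card) =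
      (a0 * ∏ k, d k + ∑ k, b k * ∏ l ∈ univ.erase k, d l) ^ Fintype.card J := by
  classical
  let α : Option K → ℝ := fun o => match o with
    | none => a0
    | some k => b k
  let ω : Option K → ℝ := fun o => α o * ∏ l, (if o = some l then 1 else d l)
  have h1 : a0 * ∏ k, d k + ∑ k, b k * ∏ l ∈ univ.erase k, d l = ∑ o, ω o := by
    rw [Fintype.sum_option]
    refine congrArg₂ (· + ·) ?_ ?_
    · simp [ω, α]
    · refine Finset.sum_congr rfl fun k _ => ?_
      simp only [ω, α]
      congr 1
      have h2 : ∏ l ∈ univ.erase k, d l = ∏ l ∈ univ.erase k, (if (some k : Option K) = some l then 1 else d l) := by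
        refine Finset.prod_congr rfl fun l hl => ?_
        rw [if_neg]
        intro h
        exact Finset.ne_of_mem_erase hl (by simpa using h.symm)
      rw [h2, Finset.prod_erase _ (by simp)]
  rw [h1]
  have h3 : (∑ o, ω o) ^ Fintype.card J = ∑ s : J → Option K, ∏ a, ω (s a) := by
    rw [← Finset.card_univ, ← Finset.prod_const, Finset.prod_univ_sum, Fintype.piFinset_univ]
  rw [h3]
  refine Finset.sum_congr rfl fun s _ => ?_
  simp only [ω]
  rw [Finset.prod_mul_distrib, Finset.prod_comm]
  have h4 : ∏ a, α (s a) = ∏ o, α o ^ (fib s o).card := by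
    rw [← Finset.prod_fiberwise (s := univ) (g := s)]
    refine Finset.prod_congr rfl fun o _ => ?_
    rw [Finset.prod_congr rfl (g := fun _ => α o)]
    · simp [fib]
    · intro a ha
      simp only [mem_filter, mem_univ, true_and] at ha
      simp [ha]
  rw [h4, Fintype.prod_option]
  unfold wt
  rw [mul_assoc]
  congr 1
  rw [← Finset.prod_mul_distrib]
  refine Finset.prod_congr rfl fun k _ => ?_
  congr 1
  rw [Finset.prod_ite]
  simp only [prod_const_one, one_mul, prod_const]
  congr 1
  have h5 := Finset.card_filter_add_card_filter_not (s := (univ : Finset J)) (fun a => s a = some k)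
  rw [Finset.card_univ] at h5
  have h6 : (fib s (some k)).card = (univ.filter fun a => s a = some k).card := rfl
  omega

theorem lsz_star (A : Matrix (Option K) (Option K) ℂ) (hA : A.PosSemidef)
    (hstar : ∀ k l, k ≠ l → A (some k) (some l) = 0) (B : Matrix J J ℂ) (hB : B.PosSemidef) :
    A.permanent ^ Fintype.card J * B.permanent ^ Fintype.card (Option K) ≤
      (Matrix.kronecker A B).permanent := by
  classical
  set m := Fintype.card J with hm
  let a0 : ℝ := (A none none).re
  let b : K → ℝ := fun k => Complex.normSq (A none (some k))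
  let d : K → ℝ := fun k => (A (some k) (some k)).re
  have ha0 : A none none = (a0 : ℂ) ∧ 0 ≤ a0 := by
    have h := Complex.le_def.mp (hA.diag_nonneg (i := none))
    refine ⟨Complex.ext (by simp [a0]) (by simpa using h.2.symm), h.1⟩
  have hd : ∀ k, A (some k) (some k) = (d k : ℂ) ∧ 0 ≤ d k := by
    intro k
    have h := Complex.le_def.mp (hA.diag_nonneg (i := some k))
    refine ⟨Complex.ext (by simp [d]) (by simpa using h.2.symm), h.1⟩
  have hb : ∀ k, A none (some k) * A (some k) none = (b k : ℂ) ∧ 0 ≤ b k := by
    intro k
    refine ⟨?_, Complex.normSq_nonneg _⟩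
    have h := hA.isHermitian.apply none (some k)
    rw [← h]
    simp only [b]
    rw [← h, RCLike.star_def, Complex.normSq_conj, mul_comm, Complex.mul_conj]
  have hpermA : A.permanent = ((a0 * ∏ k, d k + ∑ k, b k * ∏ l ∈ univ.erase k, d l : ℝ) : ℂ) := by
    rw [perm_star A hstar]
    push_cast
    rw [ha0.1]
    congr 1
    · congr 1
      exact Finset.prod_congr rfl fun k _ => (hd k).1
    · refine Finset.sum_congr rfl fun k _ => ?_
      rw [(hb k).1]
      congr 1
      exact Finset.prod_congr rfl fun k _ => (hd k).1
  obtain ⟨hPr, hP⟩ := perm_real B hB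
  -- expansion
  let cs : (J → Option K) → (Option K → ℕ) := fun s o => (fib s o).card
  let τ : (J → Option K) → (J → Option K) → ℂ := fun s r =>
    GG B (fib s none) (fib r none) * ∏ k, HH B (fib s (some k)) (fib r (some k))
  have hexp : (Matrix.kronecker A B).permanent =
      ∑ s : J → Option K, ((wt m a0 b d (cs s) : ℝ) : ℂ) * ∑ r : J → Option K, τ s r := by
    rw [permanent_eq]
    have h1 := star_expand A hstar B
    refine Eq.trans ?_ (h1.trans ?_)
    · rfl
    · refine Finset.sum_congr rfl fun s _ => ?_
      rw [Finset.mul_sum]
      refine Finset.sum_congr rfl fun r _ => ?_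
      simp only [τ, wt, cs]
      push_cast
      rw [ha0.1]
      have h2 : ∏ k, ((A none (some k) * A (some k) none) ^ (fib s (some k)).card *
          A (some k) (some k) ^ (Fintype.card J - (fib s (some k)).card) *
          HH B (fib s (some k)) (fib r (some k))) =
          (∏ k, ((b k : ℂ) ^ (fib s (some k)).card * (d k : ℂ) ^ (m - (fib s (some k)).card))) *
          ∏ k, HH B (fib s (some k)) (fib r (some k)) := by
        rw [← Finset.prod_mul_distrib]
        refine Finset.prod_congr rfl fun k _ => ?_
        rw [(hb k).1, (hd k).1]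
      rw [h2]
      ring
  have hτ : ∀ c : Option K → ℕ, ∀ s : J → Option K, cs s = c →
      ∑ r : J → Option K, τ s r = ∑ r : FF K J c, τ s r.1 := by
    intro c s hs
    rw [sum_FF c (fun r => τ s r)]
    refine Finset.sum_congr rfl fun r _ => ?_
    split_ifs with h
    · rfl
    · push Not at h
      obtain ⟨o, ho⟩ := h
      have ho' : (fib s o).card ≠ (fib r o).card := by
        have : (fib s o).card = c o := congrFun hs o
        rw [this]; exact Ne.symm ho
      simp only [τ]
      rcases o with _ | k
      · rw [GG_eq_zero _ _ _ ho', zero_mul]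
      · rw [Finset.prod_eq_zero (mem_univ k) (HH_eq_zero _ _ _ ho'), mul_zero]
  have hT := fun c : Option K → ℕ => star_T (K := K) B hB c
  choose T hT1 hT2 using hT
  have hgroup : (Matrix.kronecker A B).permanent =
      ((∑ c ∈ univ.image cs, wt m a0 b d c * T c : ℝ) : ℂ) := by
    rw [hexp, ← Finset.sum_fiberwise_of_maps_to (s := univ) (t := univ.image cs) (g := cs)
      (fun s _ => Finset.mem_image_of_mem _ (mem_univ s))]
    push_cast
    refine Finset.sum_congr rfl fun c _ => ?_
    rw [← hT1 c, Finset.mul_sum]
    have h1 : ∀ s ∈ univ.filter (fun s => cs s = c), ((wt m a0 b d (cs s) : ℝ) : ℂ) *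
        ∑ r : J → Option K, τ s r = ((wt m a0 b d c : ℝ) : ℂ) * ∑ r : FF K J c, τ s r.1 := by
      intro s hs
      have hs' : cs s = c := by simpa using hs
      rw [hτ c s hs', hs']
    rw [Finset.sum_congr rfl h1]
    have h2 : (univ.filter (fun s => cs s = c)) = univ.filter (fun s => ∀ o, (fib s o).card = c o) := by
      ext s
      simp only [mem_filter, mem_univ, true_and, cs]
      exact funext_iff
    rw [h2, Finset.sum_subtype (p := fun s : J → Option K => ∀ o, (fib s o).card = c o)]
    intro x; simp
  have hwt : ∀ c, 0 ≤ wt m a0 b d c := by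
    intro c
    unfold wt
    apply mul_nonneg (pow_nonneg ha0.2 _)
    apply Finset.prod_nonneg
    intro k _
    exact mul_nonneg (pow_nonneg (hb k).2 _) (pow_nonneg (hd k).2 _)
  have hlow : (∑ s : J → Option K, wt m a0 b d (cs s)) * B.permanent.re ^ (1 + Fintype.card K) ≤
      ∑ c ∈ univ.image cs, wt m a0 b d c * T c := by
    rw [← Finset.sum_fiberwise_of_maps_to (s := univ) (t := univ.image cs) (g := cs)
      (fun s _ => Finset.mem_image_of_mem _ (mem_univ s)) (fun s => wt m a0 b d (cs s)),
      Finset.sum_mul]
    refine Finset.sum_le_sum fun c _ => ?_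
    have h1 : ∑ s ∈ univ.filter (fun s => cs s = c), wt m a0 b d (cs s) =
        Fintype.card (FF K J c) * wt m a0 b d c := by
      have h2 : ∀ s ∈ univ.filter (fun s => cs s = c), wt m a0 b d (cs s) = wt m a0 b d c := by
        intro s hs
        have hs' : cs s = c := by simpa using hs
        rw [hs']
      rw [Finset.sum_congr rfl h2, Finset.sum_const, nsmul_eq_mul]
      congr 2
      rw [Fintype.card_subtype]
      congr 1
      ext s
      simp only [mem_filter, mem_univ, true_and, cs]
      exact funext_iff
    rw [h1]
    calc _ = wt m a0 b d c * (Fintype.card (FF K J c) * B.permanent.re ^ (1 + Fintype.card K)) := by ring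
      _ ≤ _ := mul_le_mul_of_nonneg_left (hT2 c) (hwt c)
  rw [sum_wt] at hlow
  rw [hgroup, hpermA, hPr, Fintype.card_option, add_comm (Fintype.card K) 1]
  exact_mod_cast hlow

end main

end Pool.Agent.helper16.LSZ
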