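import Mathlib
import Pool.Agent.helper16.LSZ.StarMain

/-!
Star forests: direct sums of star matrices.
-/

open Finset BigOperators
open scoped ComplexOrder

namespace Pool.Agent.helper16.LSZ

theorem pp_zero_of {ι κ : Type*} [Fintype ι] [Fintype κ] (M : ι → κ → ℂ) (p : ι → Prop)
    (q : κ → Prop) (k : κ) (hk : q k) (h : ∀ i, p i → M i k = 0) : pp M p q = 0 := by
  classical
  unfold pp
  apply Finset.sum_eq_zero
  intro e _
  refine Finset.prod_eq_zero (i := e.symm ⟨k, hk⟩) (mem_univ _) ?_
  rw [Equiv.apply_symm_apply]
  exact h _ (e.symm ⟨k, hk⟩).2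

section block

variable {I Q : Type*} [Fintype I] [DecidableEq I] [Fintype Q] [DecidableEq Q]

/-- permanent of a block diagonal matrix -/
theorem permanent_block (M : Matrix I I ℂ) (f : I → Q) (h : ∀ i j, f i ≠ f j → M i j = 0) :
    M.permanent = ∏ q, (M.submatrix (Subtype.val : {i // f i = q} → I) Subtype.val).permanent := by
  classical
  rw [permanent_eq, laplace f (fun a b => M a b)]
  rw [Finset.sum_eq_single f]
  · refine Finset.prod_congr rfl fun q _ => ?_
    rw [permanent_eq]
    unfold pp
    refine Finset.sum_congr (univ_inst _ _) fun e _ => ?_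
    refine Finset.prod_congr (univ_inst _ _) fun a _ => ?_
    rfl
  · intro g _ hg
    have : ∃ k, g k ≠ f k := by
      by_contra hcon
      push Not at hcon
      exact hg (funext hcon)
    obtain ⟨k, hk⟩ := this
    apply Finset.prod_eq_zero (mem_univ (g k))
    refine pp_zero_of (fun a b => M a b) (fun i => f i = g k) (fun k' => g k' = g k) k rfl ?_
    intro i hi
    apply h
    rw [hi]
    exact hk
  · simp

end block

section reindex

variable {I I' J : Type*} [Fintype I] [DecidableEq I] [Fintype I'] [DecidableEq I'] [Fintype J]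
  [DecidableEq J]

theorem permanent_submatrix_equiv (M : Matrix I I ℂ) (e : I' ≃ I) :
    (M.submatrix e e).permanent = M.permanent := by
  rw [permanent_eq, permanent_eq]
  refine Fintype.sum_equiv (Equiv.equivCongr e e) _ _ fun σ => ?_
  refine Fintype.prod_equiv e _ _ fun i => ?_
  simp

theorem lsz_star' (A : Matrix I I ℂ) (hA : A.PosSemidef) (i0 : I)
    (hstar : ∀ i j, i ≠ j → i ≠ i0 → j ≠ i0 → A i j = 0) (B : Matrix J J ℂ) (hB : B.PosSemidef) :
    A.permanent ^ Fintype.card J * B.permanent ^ Fintype.card I ≤
      (Matrix.kronecker A B).permanent := by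
  let e : Option {i : I // i ≠ i0} ≃ I := (Equiv.optionSubtypeNe i0)
  have h := lsz_star (A.submatrix e e) (hA.submatrix e) (fun k l hkl => by
    simp only [Matrix.submatrix_apply]
    apply hstar
    · intro h
      apply hkl
      have := e.injective h
      simpa using this
    · simpa [e] using k.2
    · simpa [e] using l.2) B hB
  rw [permanent_submatrix_equiv, Fintype.card_congr e] at h
  have h2 : (Matrix.kronecker (A.submatrix e e) B).permanent = (Matrix.kronecker A B).permanent := by
    have h3 : Matrix.kronecker (A.submatrix e e) B =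
        (Matrix.kronecker A B).submatrix (e.prodCongr (Equiv.refl J)) (e.prodCongr (Equiv.refl J)) := by
      ext x y
      rfl
    rw [h3, permanent_submatrix_equiv]
  rwa [h2] at h

end reindex

section forest

variable {I J : Type*} [Fintype I] [DecidableEq I] [Fintype J] [DecidableEq J]

theorem lsz_forest (A : Matrix I I ℂ) (hA : A.PosSemidef) (c : I → I) (hc : ∀ i, c (c i) = c i)
    (hsupp : ∀ i j, i ≠ j → c i ≠ j → c j ≠ i → A i j = 0) (B : Matrix J J ℂ) (hB : B.PosSemidef) :
    A.permanent ^ Fintype.card J * B.permanent ^ Fintype.card I ≤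
      (Matrix.kronecker A B).permanent := by
  classical
  have hdiff : ∀ i j, c i ≠ c j → A i j = 0 := by
    intro i j hij
    apply hsupp
    · rintro rfl; exact hij rfl
    · rintro rfl; rw [hc] at hij; exact hij rfl
    · rintro rfl; rw [hc] at hij; exact hij rfl
  have h1 := permanent_block A c hdiff
  have h2 := permanent_block (Matrix.kronecker A B) (fun x : I × J => c x.1) (fun x y hxy => by
    change A x.1 y.1 * B x.2 y.2 = 0
    rw [hdiff _ _ hxy, zero_mul])
  -- the blocks of the Kronecker product
  have h3 : ∀ q, ((Matrix.kronecker A B).submatrix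
      (Subtype.val : {x : I × J // c x.1 = q} → I × J) Subtype.val).permanent =
      (Matrix.kronecker (A.submatrix (Subtype.val : {i // c i = q} → I) Subtype.val) B).permanent := by
    intro q
    let e : {i // c i = q} × J ≃ {x : I × J // c x.1 = q} :=
      { toFun := fun x => ⟨(x.1.1, x.2), x.1.2⟩
        invFun := fun x => (⟨x.1.1, x.2⟩, x.1.2)
        left_inv := fun x => rfl
        right_inv := fun x => rfl }
    rw [← permanent_submatrix_equiv _ e]
    rfl
  have h4 : ∀ q, 0 ≤ (A.submatrix (Subtype.val : {i // c i = q} → I) Subtype.val).permanent ^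
      Fintype.card J * B.permanent ^ Fintype.card {i // c i = q} := by
    intro q
    apply mul_nonneg
    · exact pow_nonneg (perm_nonneg _ (hA.submatrix _)) _
    · exact pow_nonneg (perm_nonneg _ hB) _
  have h5 : ∀ q, (A.submatrix (Subtype.val : {i // c i = q} → I) Subtype.val).permanent ^
      Fintype.card J * B.permanent ^ Fintype.card {i // c i = q} ≤
      (Matrix.kronecker (A.submatrix (Subtype.val : {i // c i = q} → I) Subtype.val) B).permanent := by
    intro q
    by_cases hq : Nonempty {i // c i = q}
    · obtain ⟨⟨i, hi⟩⟩ := hq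
      have hqq : c q = q := by rw [← hi, hc]
      apply lsz_star' _ (hA.submatrix _) ⟨q, hqq⟩
      · intro a b hab ha hb
        apply hsupp
        · intro h; exact hab (Subtype.ext h)
        · intro h; apply hb; apply Subtype.ext; rw [← h, a.2]
        · intro h; apply ha; apply Subtype.ext; rw [← h, b.2]
      · exact hB
    · have : IsEmpty {i // c i = q} := not_nonempty_iff.mp hq
      have e1 : (A.submatrix (Subtype.val : {i // c i = q} → I) Subtype.val).permanent = 1 :=
        Matrix.permanent_isEmpty
      have e2 : (Matrix.kronecker (A.submatrix (Subtype.val : {i // c i = q} → I) Subtype.val)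
          B).permanent = 1 := Matrix.permanent_isEmpty
      rw [e1, e2]
      simp
  have h6 : ∑ q, Fintype.card {i // c i = q} = Fintype.card I := by
    rw [← Fintype.card_sigma]
    exact Fintype.card_congr (Equiv.sigmaFiberEquiv c)
  rw [h1, h2, ← h6, ← Finset.prod_pow_eq_pow_sum, ← Finset.prod_pow, ← Finset.prod_mul_distrib]
  rw [Finset.prod_congr rfl fun q _ => h3 q]
  exact Finset.prod_le_prod (fun q _ => h4 q) (fun q _ => h5 q)

end forest

end Pool.Agent.helper16.LSZ
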